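import Mathlib

/-!
Popularity on product sets.
-/

set_option autoImplicit false
set_option maxHeartbeats 1000000

open Finset

namespace Pool.Agent.BalanWangSW

open Classical in
/-- In a finite linear order few elements of a set have few elements of the set above them. -/
lemma few_last {n : ℕ} (P : Fin n → Prop) (t : ℕ) :
    (univ.filter (fun x : Fin n => P x ∧ (univ.filter (fun y : Fin n => x ≤ y ∧ P y)).card < t)).card
      ≤ t - 1 := by
  have h : ((Ico 1 t : Finset ℕ)).card = t - 1 := by rw [Nat.card_Ico]
  rw [← h]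
  refine card_le_card_of_injOn (fun x => (univ.filter (fun y : Fin n => x ≤ y ∧ P y)).card) ?_ ?_
  · intro x hx
    have hx' := (mem_filter.1 hx).2
    have h1 : 0 < (univ.filter (fun y : Fin n => x ≤ y ∧ P y)).card :=
      card_pos.2 ⟨x, mem_filter.2 ⟨mem_univ _, le_rfl, hx'.1⟩⟩
    have h2 := hx'.2
    simp only [coe_Ico, Set.mem_Ico]
    omega
  · have key : ∀ x y : Fin n, P x → x < y →
        (univ.filter (fun z : Fin n => y ≤ z ∧ P z)).card < (univ.filter (fun z : Fin n => x ≤ z ∧ P z)).card := by
      intro x y hx hxy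
      apply card_lt_card
      rw [ssubset_iff_of_subset]
      · exact ⟨x, mem_filter.2 ⟨mem_univ _, le_rfl, hx⟩, fun h => by
          have := (mem_filter.1 h).2.1
          exact absurd (lt_of_lt_of_le hxy this) (lt_irrefl _)⟩
      · intro z hz
        have hz' := (mem_filter.1 hz).2
        exact mem_filter.2 ⟨mem_univ _, hxy.le.trans hz'.1, hz'.2⟩
    intro x hx y hy hxy
    have hx' := (mem_filter.1 hx).2
    have hy' := (mem_filter.1 hy).2
    rcases lt_trichotomy x y with h1 | h1 | h1
    · have := key x y hx'.1 h1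
      simp only at hxy
      omega
    · exact h1
    · have := key y x hy'.1 h1
      simp only at hxy
      omega

lemma swap_sum {E : Type*} [Fintype E] {J : ℕ} (j : Fin J) (φ : (Fin J → E) → ℕ) :
    ∑ e : Fin J → E, ∑ x : E, φ (Function.update e j x) = Fintype.card E * ∑ e : Fin J → E, φ e := by
  classical
  have h1 : ∑ e : Fin J → E, ∑ x : E, φ (Function.update e j x)
      = ∑ q : (Fin J → E) × E, φ (Function.update q.1 j q.2) := by
    rw [Fintype.sum_prod_type]
  have h2 : Fintype.card E * ∑ e : Fin J → E, φ e = ∑ q : (Fin J → E) × E, φ q.1 := by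
    rw [Fintype.sum_prod_type, mul_sum]
    refine sum_congr rfl fun e _ => ?_
    change Fintype.card E * φ e = ∑ _y : E, φ e
    rw [sum_const, card_univ, smul_eq_mul]
  rw [h1, h2]
  let τ : (Fin J → E) × E → (Fin J → E) × E := fun q => (Function.update q.1 j q.2, q.1 j)
  have hτ : Function.Involutive τ := by
    rintro ⟨e, x⟩
    simp only [τ]
    rw [Function.update_idem, Function.update_self, Function.update_eq_self]
  exact Fintype.sum_equiv hτ.toPerm _ _ fun q => rfl

/-- counting points which are small on each line -/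
lemma line_count {q n t : ℕ} (hn : 0 < n) (i : Fin q) (B : (Fin q → Fin n × Fin n) → Prop)
    [DecidablePred B]
    (hB : ∀ e, ∑ x : Fin n × Fin n, (if B (Function.update e i x) then 1 else 0) ≤ n * (t - 1)) :
    n * (univ.filter B).card ≤ Fintype.card (Fin q → Fin n × Fin n) * (t - 1) := by
  have h1 := swap_sum i (fun e => if B e then 1 else 0)
  have h2 : ∑ e : Fin q → Fin n × Fin n, ∑ x : Fin n × Fin n,
      (if B (Function.update e i x) then 1 else 0) ≤
      ∑ _e : Fin q → Fin n × Fin n, n * (t - 1) := sum_le_sum fun e _ => hB e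
  rw [h1, ← card_filter, sum_const, card_univ, smul_eq_mul, Fintype.card_prod, Fintype.card_fin] at h2
  have h3 : n * (n * (univ.filter B).card) ≤
      n * (Fintype.card (Fin q → Fin n × Fin n) * (t - 1)) := by
    calc n * (n * (univ.filter B).card) = n * n * (univ.filter B).card := by ring
      _ ≤ Fintype.card (Fin q → Fin n × Fin n) * (n * (t - 1)) := h2
      _ = _ := by ring
  exact Nat.le_of_mul_le_mul_left h3 hn

open Classical in
/-- **Popular states.** -/
theorem popular {q n t : ℕ} (hq : 2 * q * (t - 1) < n)
    (PL PR : Fin q → (Fin q → Fin n × Fin n) → Prop) (h : ∀ e, ∃ i, PL i e ∧ PR i e) :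
    ∃ (e : Fin q → Fin n × Fin n) (i : Fin q), PL i e ∧ PR i e ∧
      t ≤ (univ.filter (fun x : Fin n => (e i).1 ≤ x ∧
        PL i (Function.update e i (x, (e i).2)))).card ∧
      t ≤ (univ.filter (fun y : Fin n => (e i).2 ≤ y ∧
        PR i (Function.update e i ((e i).1, y)))).card := by
  by_contra hcon
  push Not at hcon
  have hn : 0 < n := by omega
  set BL : Fin q → (Fin q → Fin n × Fin n) → Prop := fun i e => PL i e ∧
    (univ.filter (fun x : Fin n => (e i).1 ≤ x ∧ PL i (Function.update e i (x, (e i).2)))).card < t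
    with hBL
  set BR : Fin q → (Fin q → Fin n × Fin n) → Prop := fun i e => PR i e ∧
    (univ.filter (fun y : Fin n => (e i).2 ≤ y ∧ PR i (Function.update e i ((e i).1, y)))).card < t
    with hBR
  have hcov : ∀ e, ∃ i, BL i e ∨ BR i e := by
    intro e
    obtain ⟨i, h1, h2⟩ := h e
    refine ⟨i, ?_⟩
    by_cases h3 : t ≤ (univ.filter (fun x : Fin n => (e i).1 ≤ x ∧
        PL i (Function.update e i (x, (e i).2)))).card
    · exact Or.inr ⟨h2, hcon e i h1 h2 h3⟩
    · exact Or.inl ⟨h1, by omega⟩
  have hL : ∀ i, n * (univ.filter (BL i)).card ≤ Fintype.card (Fin q → Fin n × Fin n) * (t - 1) := by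
    intro i
    apply line_count hn i (BL i)
    intro e
    rw [Fintype.sum_prod_type_right]
    calc ∑ y : Fin n, ∑ x : Fin n, (if BL i (Function.update e i (x, y)) then 1 else 0)
        ≤ ∑ _y : Fin n, (t - 1) := by
          refine sum_le_sum fun y _ => ?_
          rw [← card_filter]
          refine le_trans (le_of_eq ?_) (few_last (fun x : Fin n => PL i (Function.update e i (x, y))) t)
          congr 1
          ext x
          simp only [hBL, mem_filter, mem_univ, true_and, Function.update_self, Function.update_idem]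
      _ = n * (t - 1) := by rw [sum_const, card_univ, Fintype.card_fin, smul_eq_mul]
  have hR : ∀ i, n * (univ.filter (BR i)).card ≤ Fintype.card (Fin q → Fin n × Fin n) * (t - 1) := by
    intro i
    apply line_count hn i (BR i)
    intro e
    rw [Fintype.sum_prod_type]
    calc ∑ x : Fin n, ∑ y : Fin n, (if BR i (Function.update e i (x, y)) then 1 else 0)
        ≤ ∑ _x : Fin n, (t - 1) := by
          refine sum_le_sum fun x _ => ?_
          rw [← card_filter]
          refine le_trans (le_of_eq ?_) (few_last (fun y : Fin n => PR i (Function.update e i (x, y))) t)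
          congr 1
          ext y
          simp only [hBR, mem_filter, mem_univ, true_and, Function.update_self, Function.update_idem]
      _ = n * (t - 1) := by rw [sum_const, card_univ, Fintype.card_fin, smul_eq_mul]
  have huniv : (univ : Finset (Fin q → Fin n × Fin n)) ⊆
      univ.biUnion (fun i : Fin q => univ.filter (BL i) ∪ univ.filter (BR i)) := by
    intro e _
    obtain ⟨i, hi⟩ := hcov e
    rw [mem_biUnion]
    refine ⟨i, mem_univ _, ?_⟩
    rw [mem_union, mem_filter, mem_filter]
    rcases hi with hi | hi
    · exact Or.inl ⟨mem_univ _, hi⟩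
    · exact Or.inr ⟨mem_univ _, hi⟩
  have h1 := (card_le_card huniv).trans card_biUnion_le
  have h2 : ∑ i : Fin q, (univ.filter (BL i) ∪ univ.filter (BR i)).card ≤
      ∑ i : Fin q, ((univ.filter (BL i)).card + (univ.filter (BR i)).card) :=
    sum_le_sum fun i _ => card_union_le _ _
  have h3 : n * ∑ i : Fin q, ((univ.filter (BL i)).card + (univ.filter (BR i)).card) ≤
      ∑ _i : Fin q, (Fintype.card (Fin q → Fin n × Fin n) * (t - 1) +
        Fintype.card (Fin q → Fin n × Fin n) * (t - 1)) := by
    rw [mul_sum]
    refine sum_le_sum fun i _ => ?_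
    rw [mul_add]
    exact add_le_add (hL i) (hR i)
  rw [sum_const, card_univ, Fintype.card_fin, smul_eq_mul] at h3
  rw [card_univ] at h1
  have h4 : n * Fintype.card (Fin q → Fin n × Fin n) ≤
      Fintype.card (Fin q → Fin n × Fin n) * (2 * q * (t - 1)) := by
    calc n * Fintype.card (Fin q → Fin n × Fin n)
        ≤ n * ∑ i : Fin q, ((univ.filter (BL i)).card + (univ.filter (BR i)).card) :=
          Nat.mul_le_mul_left _ (h1.trans h2)
      _ ≤ _ := h3
      _ = _ := by ring
  have h5 : 0 < Fintype.card (Fin q → Fin n × Fin n) := by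
    have : Nonempty (Fin q → Fin n × Fin n) := ⟨fun _ => (⟨0, hn⟩, ⟨0, hn⟩)⟩
    exact Fintype.card_pos
  have h6 : Fintype.card (Fin q → Fin n × Fin n) * n ≤
      Fintype.card (Fin q → Fin n × Fin n) * (2 * q * (t - 1)) := by
    rw [mul_comm]; exact h4
  have := Nat.le_of_mul_le_mul_left h6 h5
  omega

end Pool.Agent.BalanWangSW
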