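import Pool.Agent.MP_686ee2_an.RC.Univ

/-!
The conclusion: from small vectors and small relations; closedness.
-/

set_option autoImplicit false
set_option maxHeartbeats 1000000

open Finset Matrix

namespace Pool.Agent.BalanWangSW

open Pool.Agent.BalanWangRC

/-- The conclusion with a set `S` of `M` rows. -/
def ConclC {M : ℕ} (A : Matrix (Fin (2 * M - 1)) (Fin M) ℝ) (b : ℝ) : Prop :=
  ∃ S : Finset (Fin (2 * M - 1)), S.card = M ∧
    ∃ x : Fin M → ℝ, ∑ j, x j ^ 2 = 1 ∧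
      ∃ k : Fin (2 * M - 1),
        Real.sqrt (∑ i ∈ S, (∑ j, A i j * x j) ^ 2) ≤ b * Real.sqrt (∑ j, A k j ^ 2)

lemma ConclC.concl {M : ℕ} (hM : 1 ≤ M) {A : Matrix (Fin (2 * M - 1)) (Fin M) ℝ} {b : ℝ}
    (h : ConclC A b) : Concl A b := by
  obtain ⟨S, hS, x, hx, k, hk⟩ := h
  exact ⟨S, rank_lt hM A S hS, x, hx, k, hk⟩

lemma ConclC.mono {M : ℕ} {A : Matrix (Fin (2 * M - 1)) (Fin M) ℝ} {b c : ℝ} (h : ConclC A b)
    (hbc : b ≤ c) : ConclC A c := by
  obtain ⟨S, hS, x, hx, k, hk⟩ := h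
  exact ⟨S, hS, x, hx, k, hk.trans (mul_le_mul_of_nonneg_right hbc (Real.sqrt_nonneg _))⟩

/-- From an almost vanishing linear relation between the rows. -/
lemma relation' {M : ℕ} (hM : 1 ≤ M) (A : Matrix (Fin (2 * M - 1)) (Fin M) ℝ)
    (z : Fin (2 * M - 1) → ℝ) (k0 : Fin (2 * M - 1)) (hz : z k0 = 1)
    (hrel : ∀ l, ∑ k, A k l * z k = 0) (T : Finset (Fin (2 * M - 1))) (hT : M - 1 ≤ T.card)
    (hk0 : k0 ∉ T) (ε : ℝ) (hε : 0 ≤ ε) (hTε : ∀ k ∈ T, |z k| ≤ ε) : ConclC A (M * ε) := by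
  obtain ⟨T1, hT1, hT1c⟩ := Finset.exists_subset_card_eq hT
  have hk0T1 : k0 ∉ T1 := fun h => hk0 (hT1 h)
  have hScard : (T1ᶜ).card = M := by
    rw [Finset.card_compl, Fintype.card_fin, hT1c]; omega
  obtain ⟨ks, -, hks⟩ := Finset.exists_max_image (univ : Finset (Fin (2 * M - 1)))
    (fun k => ∑ j, A k j ^ 2) ⟨k0, Finset.mem_univ _⟩
  set a : ℝ := ∑ j, A ks j ^ 2 with ha
  have ha0 : 0 ≤ a := Finset.sum_nonneg fun _ _ => sq_nonneg _
  obtain ⟨x, hx1, hx2⟩ := square A (T1ᶜ) hScard z (by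
      have : z k0 ^ 2 ≤ ∑ i ∈ T1ᶜ, z i ^ 2 :=
        Finset.single_le_sum (f := fun i => z i ^ 2) (fun _ _ => sq_nonneg _)
          (Finset.mem_compl.2 hk0T1)
      rw [hz] at this
      linarith) (((M : ℝ) - 1) ^ 2 * ε ^ 2 * a) (by
      have h1 : ∀ j, ∑ i ∈ T1ᶜ, z i * A i j = -∑ i ∈ T1, z i * A i j := by
        intro j
        have := Finset.sum_add_sum_compl T1 (fun i => z i * A i j)
        have h0 := hrel j
        simp only [mul_comm (A _ j)] at h0
        rw [h0] at this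
        linarith
      have h2 : ∀ j, (∑ i ∈ T1ᶜ, z i * A i j) ^ 2 ≤ (∑ i ∈ T1, z i ^ 2) * ∑ i ∈ T1, A i j ^ 2 := by
        intro j
        rw [h1, neg_sq]
        exact Finset.sum_mul_sq_le_sq_mul_sq _ _ _
      calc ∑ j, (∑ i ∈ T1ᶜ, z i * A i j) ^ 2
          ≤ ∑ j, (∑ i ∈ T1, z i ^ 2) * ∑ i ∈ T1, A i j ^ 2 := Finset.sum_le_sum fun j _ => h2 j
        _ = (∑ i ∈ T1, z i ^ 2) * ∑ i ∈ T1, ∑ j, A i j ^ 2 := by
            rw [← Finset.mul_sum, Finset.sum_comm]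
        _ ≤ (∑ _i ∈ T1, ε ^ 2) * ∑ _i ∈ T1, a := by
            refine mul_le_mul ?_ ?_ ?_ ?_
            · refine Finset.sum_le_sum fun i hi => ?_
              have := hTε i (hT1 hi)
              rw [← sq_abs (z i)]
              exact pow_le_pow_left₀ (abs_nonneg _) this 2
            · exact Finset.sum_le_sum fun i _ => hks i (Finset.mem_univ _)
            · exact Finset.sum_nonneg fun _ _ => Finset.sum_nonneg fun _ _ => sq_nonneg _
            · exact Finset.sum_nonneg fun _ _ => sq_nonneg _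
        _ = ((M : ℝ) - 1) ^ 2 * ε ^ 2 * a := by
            rw [Finset.sum_const, Finset.sum_const, hT1c, nsmul_eq_mul, nsmul_eq_mul,
              Nat.cast_sub hM]
            push_cast
            ring)
  refine ⟨T1ᶜ, hScard, x, hx1, ks, ?_⟩
  have hM' : (1 : ℝ) ≤ M := by exact_mod_cast hM
  rw [← ha]
  calc Real.sqrt (∑ i ∈ T1ᶜ, (∑ j, A i j * x j) ^ 2)
      ≤ Real.sqrt ((((M : ℝ) - 1) * ε) ^ 2 * a) := Real.sqrt_le_sqrt (by
        rw [mul_pow]; exact hx2)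
    _ = (((M : ℝ) - 1) * ε) * Real.sqrt a := by
        rw [Real.sqrt_mul (sq_nonneg _), Real.sqrt_sq (mul_nonneg (by linarith) hε)]
    _ ≤ M * ε * Real.sqrt a := by
        refine mul_le_mul_of_nonneg_right ?_ (Real.sqrt_nonneg _)
        exact mul_le_mul_of_nonneg_right (by linarith) hε

/-- From an almost vanishing measurement vector. -/
lemma vector' {M : ℕ} (hM : 1 ≤ M) (A : Matrix (Fin (2 * M - 1)) (Fin M) ℝ)
    (x0 : Fin M → ℝ) (k0 : Fin (2 * M - 1)) (hz : ∑ j, A k0 j * x0 j = 1)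
    (T : Finset (Fin (2 * M - 1))) (hT : M ≤ T.card)
    (ε : ℝ) (hε : 0 ≤ ε) (hTε : ∀ k ∈ T, |∑ j, A k j * x0 j| ≤ ε) : ConclC A (M * ε) := by
  obtain ⟨S, hST, hSc⟩ := Finset.exists_subset_card_eq hT
  have hcs : 1 ≤ (∑ j, A k0 j ^ 2) * ∑ j, x0 j ^ 2 := by
    have := Finset.sum_mul_sq_le_sq_mul_sq univ (fun j => A k0 j) x0
    rw [hz] at this
    linarith
  have ha0 : 0 ≤ ∑ j, A k0 j ^ 2 := Finset.sum_nonneg fun _ _ => sq_nonneg _
  have hx0 : 0 < ∑ j, x0 j ^ 2 := by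
    rcases lt_or_eq_of_le (Finset.sum_nonneg fun (j : Fin M) _ => sq_nonneg (x0 j)) with h | h
    · exact h
    · rw [← h, mul_zero] at hcs; linarith
  obtain ⟨x, hx1, hx2⟩ := normalise A S x0 hx0 (M * ε ^ 2 * ∑ j, A k0 j ^ 2) (by
    calc ∑ i ∈ S, (∑ j, A i j * x0 j) ^ 2 ≤ ∑ _i ∈ S, ε ^ 2 := by
          refine Finset.sum_le_sum fun i hi => ?_
          rw [← sq_abs]
          exact pow_le_pow_left₀ (abs_nonneg _) (hTε i (hST hi)) 2
      _ = M * ε ^ 2 * 1 := by rw [Finset.sum_const, hSc, nsmul_eq_mul, mul_one]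
      _ ≤ M * ε ^ 2 * ((∑ j, A k0 j ^ 2) * ∑ j, x0 j ^ 2) :=
          mul_le_mul_of_nonneg_left hcs (by positivity)
      _ = _ := by ring)
  refine ⟨S, hSc, x, hx1, k0, ?_⟩
  have hM' : (1 : ℝ) ≤ M := by exact_mod_cast hM
  calc Real.sqrt (∑ i ∈ S, (∑ j, A i j * x j) ^ 2)
      ≤ Real.sqrt ((M * ε) ^ 2 * ∑ j, A k0 j ^ 2) := Real.sqrt_le_sqrt (hx2.trans (by
        refine mul_le_mul_of_nonneg_right ?_ ha0
        rw [mul_pow]
        refine mul_le_mul_of_nonneg_right ?_ (sq_nonneg _)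
        nlinarith))
    _ = M * ε * Real.sqrt (∑ j, A k0 j ^ 2) := by
        rw [Real.sqrt_mul (sq_nonneg _), Real.sqrt_sq (mul_nonneg (by linarith) hε)]

lemma trivialC {M : ℕ} (hM : 1 ≤ M) (A : Matrix (Fin (2 * M - 1)) (Fin M) ℝ) : ConclC A 1 := by
  classical
  obtain ⟨S, -, hS⟩ := Finset.exists_subset_card_eq (s := (univ : Finset (Fin (2 * M - 1)))) (n := M)
    (by rw [card_univ, Fintype.card_fin]; omega)
  obtain ⟨ks, -, hks⟩ := Finset.exists_max_image (univ : Finset (Fin (2 * M - 1)))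
    (fun k => ∑ j, A k j ^ 2) ⟨⟨0, by omega⟩, Finset.mem_univ _⟩
  obtain ⟨j, -, hj⟩ : ∃ j ∈ (univ : Finset (Fin M)), ∑ i ∈ S, A i j ^ 2 ≤ ∑ j, A ks j ^ 2 := by
    apply Finset.exists_le_of_sum_le (⟨⟨0, by omega⟩, Finset.mem_univ _⟩)
    rw [Finset.sum_comm, Finset.sum_const, card_univ, Fintype.card_fin, nsmul_eq_mul]
    have := Finset.sum_le_card_nsmul S (fun i => ∑ j, A i j ^ 2) _ fun i _ => hks i (Finset.mem_univ _)
    rw [hS, nsmul_eq_mul] at this
    exact this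
  refine ⟨S, hS, Pi.single j 1, ?_, ks, ?_⟩
  · rw [Finset.sum_eq_single j] <;> simp +contextual
  · rw [one_mul]
    refine Real.sqrt_le_sqrt ?_
    have : ∀ i, ∑ l, A i l * (Pi.single j (1 : ℝ) : Fin M → ℝ) l = A i j := by
      intro i
      rw [Finset.sum_eq_single j] <;> simp +contextual
    simp only [this]
    exact hj

/-- The unit sphere is compact. -/
lemma sphere_compact (M : ℕ) : IsCompact {x : Fin M → ℝ | ∑ j, x j ^ 2 = 1} := by
  apply Metric.isCompact_of_isClosed_isBounded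
  · exact isClosed_eq (by fun_prop) continuous_const
  · rw [Metric.isBounded_iff_subset_closedBall 0]
    refine ⟨1, fun x hx => ?_⟩
    rw [mem_closedBall_zero_iff, pi_norm_le_iff_of_nonneg zero_le_one]
    intro i
    have h1 : x i ^ 2 ≤ ∑ j, x j ^ 2 :=
      Finset.single_le_sum (f := fun i => x i ^ 2) (fun _ _ => sq_nonneg _) (Finset.mem_univ i)
    have hx' : ∑ j, x j ^ 2 = 1 := hx
    rw [hx'] at h1
    rw [Real.norm_eq_abs]
    exact (sq_le_one_iff_abs_le_one _).1 h1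

/-- **Closedness** of the conclusion. -/
lemma conclC_closed {M : ℕ} (b : ℝ) :
    IsClosed {A : Matrix (Fin (2 * M - 1)) (Fin M) ℝ | ConclC A b} := by
  have : CompactSpace {x : Fin M → ℝ | ∑ j, x j ^ 2 = 1} :=
    isCompact_iff_compactSpace.1 (sphere_compact M)
  have h : {A : Matrix (Fin (2 * M - 1)) (Fin M) ℝ | ConclC A b} =
      ⋃ p : Finset (Fin (2 * M - 1)) × Fin (2 * M - 1),
        {A : Matrix (Fin (2 * M - 1)) (Fin M) ℝ | p.1.card = M ∧ A ∈ Prod.fst ''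
          {q : Matrix (Fin (2 * M - 1)) (Fin M) ℝ × {x : Fin M → ℝ | ∑ j, x j ^ 2 = 1} |
            Real.sqrt (∑ i ∈ p.1, (∑ j, q.1 i j * q.2.1 j) ^ 2) ≤
              b * Real.sqrt (∑ j, q.1 p.2 j ^ 2)}} := by
    ext A
    simp only [Set.mem_setOf_eq, Set.mem_iUnion, Set.mem_image]
    constructor
    · rintro ⟨S, hS, x, hx, k, hk⟩
      exact ⟨(S, k), hS, (A, ⟨x, hx⟩), hk, rfl⟩
    · rintro ⟨⟨S, k⟩, hS, ⟨A', x⟩, hk, rfl⟩
      exact ⟨S, hS, x.1, x.2, k, hk⟩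
  rw [h]
  refine isClosed_iUnion_of_finite fun p => ?_
  by_cases hp : p.1.card = M
  · simp only [hp, true_and, Set.setOf_mem_eq]
    refine isClosedMap_fst_of_compactSpace _ ?_
    refine isClosed_le ?_ ?_
    · refine Real.continuous_sqrt.comp (continuous_finset_sum _ fun i _ => Continuous.pow ?_ 2)
      exact continuous_finset_sum _ fun j _ => (continuous_fst.matrix_elem i j).mul
        ((continuous_apply j).comp (continuous_subtype_val.comp continuous_snd))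
    · refine continuous_const.mul (Real.continuous_sqrt.comp
        (continuous_finset_sum _ fun j _ => Continuous.pow ?_ 2))
      exact continuous_fst.matrix_elem p.2 j
  · simp only [hp, false_and, Set.setOf_false]
    exact isClosed_empty

end Pool.Agent.BalanWangSW
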