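import Pool.Agent.MP_686ee2_an.SW.Grid

/-!
The plaquette in cyclic order.
-/

set_option autoImplicit false
set_option maxHeartbeats 1000000

open Finset Matrix

namespace Pool.Agent.BalanWangSW

open Pool.Agent.BalanWang Pool.Agent.BalanWangSC

/-- cyclic order -/
def Cyc (a b c d : ℕ) : Prop :=
  (a < b ∧ b < c ∧ c < d) ∨ (b < c ∧ c < d ∧ d < a) ∨ (c < d ∧ d < a ∧ a < b) ∨
    (d < a ∧ a < b ∧ b < c)

section plaq

variable {s : ℕ}

variable (P : Finset ℕ → ℝ) (ℓ : ℕ) (hpos : ∀ S ⊆ range ℓ, S.card = s + 2 → 0 < P S)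
  (hpl : ∀ X ⊆ range ℓ, X.card = s → ∀ a b c d : ℕ, a < b → b < c → c < d → d < ℓ → a ∉ X → b ∉ X →
    c ∉ X → d ∉ X → P (insert a (insert c X)) * P (insert b (insert d X)) =
      P (insert a (insert b X)) * P (insert c (insert d X)) +
        P (insert a (insert d X)) * P (insert b (insert c X)))
  {X : Finset ℕ} (hX : X ⊆ range ℓ) (hXc : X.card = s)

include hpos hpl hX hXc

lemma three_cyc {a b c d : ℕ} (h : Cyc a b c d) (ha : a < ℓ) (hb : b < ℓ) (hc : c < ℓ) (hd : d < ℓ)
    (haX : a ∉ X) (hbX : b ∉ X) (hcX : c ∉ X) (hdX : d ∉ X) :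
    lp P X a b + lp P X c d ≤ lp P X a c + lp P X b d ∧
      lp P X a d + lp P X b c ≤ lp P X a c + lp P X b d ∧
      2 * Real.log 2 + lp P X a b + lp P X c d + lp P X a d + lp P X b c
        ≤ 2 * (lp P X a c + lp P X b d) := by
  rcases h with ⟨h1, h2, h3⟩ | ⟨h1, h2, h3⟩ | ⟨h1, h2, h3⟩ | ⟨h1, h2, h3⟩
  · exact three_log P ℓ hpos hpl hX hXc h1 h2 h3 hd haX hbX hcX hdX
  · have := three_log P ℓ hpos hpl hX hXc h1 h2 h3 ha hbX hcX hdX haX
    rw [lp_comm P X a b, lp_comm P X a c, lp_comm P X a d]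
    refine ⟨by linarith [this.2.1], by linarith [this.1], by linarith [this.2.2]⟩
  · have := three_log P ℓ hpos hpl hX hXc h1 h2 h3 hb hcX hdX haX hbX
    rw [lp_comm P X a c, lp_comm P X a d, lp_comm P X b c, lp_comm P X b d]
    refine ⟨by linarith [this.1], by linarith [this.2.1], by linarith [this.2.2]⟩
  · have := three_log P ℓ hpos hpl hX hXc h1 h2 h3 hc hdX haX hbX hcX
    rw [lp_comm P X c d, lp_comm P X a d, lp_comm P X b d]
    refine ⟨by linarith [this.2.1], by linarith [this.1], by linarith [this.2.2]⟩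

/-- Exchange inequalities: both logarithmic cross ratios are nonnegative, and their sum for displaced
holes is at least `2 log 2`. -/
lemma plaquette_cyc {a a' b c c' d d' d'' : ℕ} (haa : a ≤ a') (hab : a' < b) (hbc' : b < c')
    (hc'c : c' ≤ c) (hd : Cyc a b c d) (hd' : d' = d ∨ Cyc b c d' d) (hd'' : d'' = d ∨ Cyc a b d d'')
    (hcℓ : c < ℓ) (hdℓ : d < ℓ) (hd'ℓ : d' < ℓ) (hd''ℓ : d'' < ℓ) (haX : a ∉ X) (ha'X : a' ∉ X)
    (hbX : b ∉ X) (hcX : c ∉ X) (hc'X : c' ∉ X) (hdX : d ∉ X) (hd'X : d' ∉ X) (hd''X : d'' ∉ X) :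
    2 * Real.log 2 ≤
      ((lp P X a' c - lp P X d' c) - (lp P X a' b - lp P X d' b)) +
      ((lp P X c' a - lp P X d'' a) - (lp P X c' b - lp P X d'' b)) := by
  have h0 := (three_cyc P ℓ hpos hpl hX hXc hd (by omega) (by omega) hcℓ hdℓ haX hbX hcX hdX).2.2
  -- displaced a
  have h1 : lp P X a c + lp P X a' b ≤ lp P X a' c + lp P X a b := by
    rcases Nat.lt_or_ge a a' with h | h
    · have := (three_log P ℓ hpos hpl hX hXc h hab (by omega : b < c) hcℓ haX ha'X hbX hcX).2.1
      linarith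
    · have : a = a' := by omega
      rw [this]
  -- displaced d to the left
  have h2 : lp P X b d + lp P X c d' ≤ lp P X b d' + lp P X c d := by
    rcases hd' with h | h
    · rw [h]
    · have := (three_cyc P ℓ hpos hpl hX hXc h (by omega) hcℓ hd'ℓ hdℓ hbX hcX hd'X hdX).2.1
      linarith
  -- displaced c
  have h3 : lp P X a c + lp P X b c' ≤ lp P X a c' + lp P X b c := by
    rcases Nat.lt_or_ge c' c with h | h
    · have := (three_log P ℓ hpos hpl hX hXc (by omega : a < b) hbc' h hcℓ haX hbX hc'X hcX).2.1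
      linarith
    · have : c' = c := by omega
      rw [this]
  -- displaced d to the right
  have h4 : lp P X b d + lp P X a d'' ≤ lp P X b d'' + lp P X a d := by
    rcases hd'' with h | h
    · rw [h]
    · have := (three_cyc P ℓ hpos hpl hX hXc h (by omega) (by omega) hdℓ hd''ℓ haX hbX hdX hd''X).2.1
      linarith
  rw [lp_comm P X d' c, lp_comm P X d' b, lp_comm P X c' a, lp_comm P X d'' a, lp_comm P X c' b,
    lp_comm P X d'' b]
  linarith

end plaq

/-- Sorting: an element with many elements on both sides. -/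
lemma exists_split (O : Finset ℕ) (g : ℕ) (h : 2 * g + 1 ≤ O.card) :
    ∃ x ∈ O, g + 1 ≤ (O.filter (· ≤ x)).card ∧ g + 1 ≤ (O.filter (x ≤ ·)).card := by
  classical
  set f := O.orderEmbOfFin rfl with hf
  have hfm : ∀ i, f i ∈ O := fun i => orderEmbOfFin_mem _ _ _
  refine ⟨f ⟨g, by omega⟩, hfm _, ?_, ?_⟩
  · have : ((univ : Finset (Fin (g + 1))).map ⟨fun i => f ⟨i.val, by omega⟩, fun i j hij => by
        have := f.injective hij
        exact Fin.ext (by simpa using this)⟩) ⊆ O.filter (· ≤ f ⟨g, by omega⟩) := by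
      intro x hx
      rw [mem_map] at hx
      obtain ⟨i, -, rfl⟩ := hx
      rw [mem_filter]
      refine ⟨hfm _, ?_⟩
      refine f.monotone ?_
      rw [Fin.mk_le_mk]
      omega
    have h2 := card_le_card this
    rw [card_map, card_univ, Fintype.card_fin] at h2
    exact h2
  · have : ((univ : Finset (Fin (g + 1))).map ⟨fun i => f ⟨g + i.val, by omega⟩, fun i j hij => by
        have := f.injective hij
        exact Fin.ext (by simpa using this)⟩) ⊆ O.filter (f ⟨g, by omega⟩ ≤ ·) := by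
      intro x hx
      rw [mem_map] at hx
      obtain ⟨i, -, rfl⟩ := hx
      rw [mem_filter]
      refine ⟨hfm _, ?_⟩
      refine f.monotone ?_
      rw [Fin.mk_le_mk]
      omega
    have h2 := card_le_card this
    rw [card_map, card_univ, Fintype.card_fin] at h2
    exact h2

end Pool.Agent.BalanWangSW
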