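import Pool.Agent.MP_686ee2_an.SW.Last

/-!
The final form.
-/

set_option autoImplicit false
set_option maxHeartbeats 1000000

open Finset Matrix

namespace Pool.Agent.BalanWangSW

open Pool.Agent.BalanWang Pool.Agent.BalanWangSC

lemma unit_sign {x : ℝ} (hx : x ≠ 0) : x / |x| = 1 ∨ x / |x| = -1 := by
  rcases lt_or_gt_of_ne hx with h | h
  · right
    rw [abs_of_neg h, div_neg, div_self hx]
  · left
    rw [abs_of_pos h, div_self hx]

/-- From the hypotheses of the theorem to the normalised ones. -/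
lemma normal {m ℓ : ℕ} (V : Matrix (Fin ℓ) (Fin (m + 1)) ℝ) (η : Fin ℓ → ℝ) (hη : ∀ k, η k ≠ 0)
    (ε : ℝ) (hε : ε ≠ 0)
    (hsign : ∀ t : Fin (m + 1) → Fin ℓ, StrictMono t → 0 ≤ ε * (∏ i, η (t i)) * (V.submatrix t id).det)
    (hne : ∃ t : Fin (m + 1) → Fin ℓ, StrictMono t ∧ (V.submatrix t id).det ≠ 0) :
    (∀ S ⊆ range ℓ, S.card = m + 1 →
      0 ≤ PS (rowsM (Matrix.of fun i j => (if j = 0 then ε / |ε| else 1) *
        (η i / |η i| * V i j))) S) ∧
    (∃ S ⊆ range ℓ, S.card = m + 1 ∧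
      0 < PS (rowsM (Matrix.of fun i j => (if j = 0 then ε / |ε| else 1) *
        (η i / |η i| * V i j))) S) := by
  have hdet : ∀ t : Fin (m + 1) → Fin ℓ,
      (Matrix.of fun i j => (Matrix.of fun i j => η i / |η i| * V i j :
        Matrix (Fin ℓ) (Fin (m + 1)) ℝ) (t i) j).det =
      (∏ i, η (t i) / |η (t i)|) * (V.submatrix t id).det := by
    intro t
    exact Matrix.det_mul_column (fun i => η (t i) / |η (t i)|) (V.submatrix t id)
  have hpos : ∀ t : Fin (m + 1) → Fin ℓ, 0 < |ε| * ∏ i, |η (t i)| := fun t =>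
    mul_pos (abs_pos.2 hε) (prod_pos fun i _ => abs_pos.2 (hη _))
  have hval : ∀ t : Fin (m + 1) → Fin ℓ,
      ε / |ε| * ((∏ i, η (t i) / |η (t i)|) * (V.submatrix t id).det) =
        (ε * (∏ i, η (t i)) * (V.submatrix t id).det) / (|ε| * ∏ i, |η (t i)|) := by
    intro t
    have h1 := (hpos t).ne'
    have h2 : |ε| ≠ 0 := (abs_pos.2 hε).ne'
    have h3 : (∏ i, |η (t i)|) ≠ 0 := (prod_pos fun i _ => abs_pos.2 (hη _)).ne'
    rw [prod_div_distrib]
    field_simp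
  have h := sign_form (Matrix.of fun i j => η i / |η i| * V i j) (ε / |ε|)
    (by
      intro t ht
      rw [hdet, hval]
      exact div_nonneg (hsign t ht) (hpos t).le)
    (by
      obtain ⟨t, ht, h1⟩ := hne
      refine ⟨t, ht, ?_⟩
      rw [hdet, hval]
      exact div_ne_zero (mul_ne_zero (mul_ne_zero hε (prod_ne_zero_iff.2 fun i _ => hη _)) h1)
        (hpos t).ne')
  exact h

/-- **The vectors which vanish on `Y` contain a Chebyshev space.** -/
theorem main_in {M m : ℕ} (hM : 1 ≤ M) (A : Matrix (Fin (2 * M - 1)) (Fin M) ℝ) (ℓ : ℕ)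
    (u : Fin ℓ → Fin (2 * M - 1)) (hu : Function.Injective u) (V : Matrix (Fin ℓ) (Fin m) ℝ)
    (η : Fin ℓ → ℝ) (hη : ∀ k, η k ≠ 0) (ε : ℝ) (hε : ε ≠ 0)
    (hsign : ∀ t : Fin m → Fin ℓ, StrictMono t → 0 ≤ ε * (∏ i, η (t i)) * (V.submatrix t id).det)
    (hne : ∃ t : Fin m → Fin ℓ, StrictMono t ∧ (V.submatrix t id).det ≠ 0)
    (Y : Finset (Fin (2 * M - 1))) (huY : ∀ k, u k ∉ Y) (g μ : ℕ)
    (hA : ∀ c : Fin m → ℝ, ∃ x : Fin M → ℝ, (∀ y ∈ Y, ∑ l, A y l * x l = 0) ∧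
      ∀ k, ∑ l, A (u k) l * x l = ∑ j, V k j * c j)
    (hcard : Y.card + m + g = M) (hμ1 : μ ≤ m) (hμ2 : m + 2 * g + μ ≤ ℓ + 1) :
    ConclC A (2 * M * (1 / 2 : ℝ) ^ ((μ : ℝ) ^ 3 / (256 * (g + μ : ℕ) ^ 2))) := by
  rcases Nat.eq_zero_or_pos m with hm | hm
  · have : μ = 0 := by omega
    apply trivial_case hM
    rw [this]
    simp
  obtain ⟨r, rfl⟩ : ∃ r, m = r + 1 := ⟨m - 1, by omega⟩
  obtain ⟨h0, hpos⟩ := normal V η hη ε hε hsign hne
  choose X hX1 hX2 using fun j : Fin (r + 1) => hA (Pi.single j 1)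
  have hX3 : ∀ k j, ∑ l, A (u k) l * X j l = V k j := by
    intro k j
    rw [hX2, sum_eq_single j]
    · rw [Pi.single_eq_same, mul_one]
    · intro l _ hl
      rw [Pi.single_eq_of_ne hl, mul_zero]
    · intro h; exact absurd (mem_univ _) h
  set C' : Matrix (Fin M) (Fin (r + 1)) ℝ :=
    Matrix.of fun l j => (if j = 0 then ε / |ε| else 1) * X j l with hC'
  have hval : ∀ i j, (A * C') i j = (if j = 0 then ε / |ε| else 1) * ∑ l, A i l * X j l := by
    intro i j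
    rw [Matrix.mul_apply, mul_sum]
    refine sum_congr rfl fun l _ => ?_
    rw [hC', Matrix.of_apply]
    ring
  have hW : (Matrix.of fun i j => η i / |η i| * (A * C') (u i) j :
        Matrix (Fin ℓ) (Fin (r + 1)) ℝ) =
      Matrix.of fun i j => (if j = 0 then ε / |ε| else 1) * (η i / |η i| * V i j) := by
    ext i j
    rw [Matrix.of_apply, Matrix.of_apply, hval, hX3]
    ring
  refine weak_in hM A (A * C') C' rfl Y ?_ ℓ u hu huY (fun i => η i / |η i|) (fun i => unit_sign (hη i))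
    ?_ ?_ g μ hμ1 hμ2 hcard
  · intro y hy j
    rw [hval, hX1 j y hy, mul_zero]
  · rw [hW]; exact h0
  · rw [hW]; exact hpos

/-- **The vectors which vanish on `Y` are contained in a Chebyshev space.** -/
theorem main_out {M m : ℕ} (hM : 1 ≤ M) (A : Matrix (Fin (2 * M - 1)) (Fin M) ℝ) (ℓ : ℕ)
    (u : Fin ℓ → Fin (2 * M - 1)) (hu : Function.Injective u) (V : Matrix (Fin ℓ) (Fin m) ℝ)
    (η : Fin ℓ → ℝ) (hη : ∀ k, η k ≠ 0) (ε : ℝ) (hε : ε ≠ 0)
    (hsign : ∀ t : Fin m → Fin ℓ, StrictMono t → 0 ≤ ε * (∏ i, η (t i)) * (V.submatrix t id).det)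
    (hne : ∃ t : Fin m → Fin ℓ, StrictMono t ∧ (V.submatrix t id).det ≠ 0)
    (Y : Finset (Fin (2 * M - 1))) (huY : ∀ k, u k ∉ Y) (g μ : ℕ)
    (hA : ∀ x : Fin M → ℝ, (∀ y ∈ Y, ∑ l, A y l * x l = 0) →
      ∃ c : Fin m → ℝ, ∀ k, ∑ l, A (u k) l * x l = ∑ j, V k j * c j)
    (hcard : Y.card + m = M + g) (hμ1 : m + μ ≤ ℓ) (hμ2 : μ + 2 * g ≤ m + 1) :
    ConclC A (2 * M * (1 / 2 : ℝ) ^ ((μ : ℝ) ^ 3 / (256 * (g + μ : ℕ) ^ 2))) := by
  rcases Nat.eq_zero_or_pos m with hm | hm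
  · apply trivial_case hM
    have h1 : μ ≤ 1 := by omega
    interval_cases μ
    · simp
    · have hg : g = 0 := by omega
      rw [hg]
      norm_num
  obtain ⟨r, rfl⟩ : ∃ r, m = r + 1 := ⟨m - 1, by omega⟩
  obtain ⟨h0, hpos⟩ := normal V η hη ε hε hsign hne
  have hδ : ∀ j : Fin (r + 1), (if j = 0 then ε / |ε| else (1 : ℝ)) * (if j = 0 then ε / |ε| else 1) = 1 := by
    intro j
    split_ifs
    · rcases unit_sign hε with h | h <;> rw [h] <;> norm_num
    · norm_num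
  have hW : (Matrix.of fun i j => η i / |η i| *
        (Matrix.of fun i j => (if j = 0 then ε / |ε| else 1) * V i j :
          Matrix (Fin ℓ) (Fin (r + 1)) ℝ) i j : Matrix (Fin ℓ) (Fin (r + 1)) ℝ) =
      Matrix.of fun i j => (if j = 0 then ε / |ε| else 1) * (η i / |η i| * V i j) := by
    ext i j
    simp only [Matrix.of_apply]
    ring
  refine weak_out hM A ℓ u hu (Matrix.of fun i j => (if j = 0 then ε / |ε| else 1) * V i j) Y huY
    ?_ (fun i => η i / |η i|) (fun i => unit_sign (hη i)) ?_ ?_ hm g μ hcard hμ1 hμ2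
  · intro x hx
    obtain ⟨c, hc⟩ := hA x hx
    refine ⟨fun j => (if j = 0 then ε / |ε| else 1) * c j, fun k => ?_⟩
    rw [hc]
    refine sum_congr rfl fun j _ => ?_
    simp only [Matrix.of_apply]
    calc V k j * c j = (if j = 0 then ε / |ε| else (1 : ℝ)) * (if j = 0 then ε / |ε| else 1) *
          (V k j * c j) := by rw [hδ, one_mul]
      _ = _ := by ring
  · rw [hW]; exact h0
  · rw [hW]; exact hpos

end Pool.Agent.BalanWangSW
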