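import Pool.Agent.MP_686ee2_an.SC.Changes

/-!
Alternating families: a set of `r` zeros with many small values.
-/

set_option autoImplicit false
set_option maxHeartbeats 1000000

open Finset Matrix

namespace Pool.Agent.BalanWangSW

open Pool.Agent.BalanWang Pool.Agent.BalanWangSC

section plaq

variable {s : ℕ}

/-- logarithm of the minor on `X` and two more elements -/
noncomputable def lp (P : Finset ℕ → ℝ) (X : Finset ℕ) (u v : ℕ) : ℝ :=
  Real.log (P (insert u (insert v X)))

lemma lp_comm (P : Finset ℕ → ℝ) (X : Finset ℕ) (u v : ℕ) : lp P X u v = lp P X v u := by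
  unfold lp
  rw [Finset.insert_comm]

variable (P : Finset ℕ → ℝ) (ℓ : ℕ) (hpos : ∀ S ⊆ range ℓ, S.card = s + 2 → 0 < P S)
  (hpl : ∀ X ⊆ range ℓ, X.card = s → ∀ a b c d : ℕ, a < b → b < c → c < d → d < ℓ → a ∉ X → b ∉ X →
    c ∉ X → d ∉ X → P (insert a (insert c X)) * P (insert b (insert d X)) =
      P (insert a (insert b X)) * P (insert c (insert d X)) +
        P (insert a (insert d X)) * P (insert b (insert c X)))
  {X : Finset ℕ} (hX : X ⊆ range ℓ) (hXc : X.card = s)

include hpos hpl hX hXc

lemma lp_pos {u v : ℕ} (huv : u ≠ v) (hu : u < ℓ) (hv : v < ℓ) (huX : u ∉ X) (hvX : v ∉ X) :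
    0 < P (insert u (insert v X)) := by
  apply hpos
  · intro y hy
    rw [mem_insert, mem_insert] at hy
    rcases hy with rfl | rfl | hy
    · exact mem_range.2 hu
    · exact mem_range.2 hv
    · exact hX hy
  · rw [card_insert_of_notMem, card_insert_of_notMem hvX, hXc]
    rw [mem_insert, not_or]
    exact ⟨huv, huX⟩

lemma three_log {a b c d : ℕ} (hab : a < b) (hbc : b < c) (hcd : c < d) (hd : d < ℓ) (haX : a ∉ X)
    (hbX : b ∉ X) (hcX : c ∉ X) (hdX : d ∉ X) :
    lp P X a b + lp P X c d ≤ lp P X a c + lp P X b d ∧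
      lp P X a d + lp P X b c ≤ lp P X a c + lp P X b d ∧
      2 * Real.log 2 + lp P X a b + lp P X c d + lp P X a d + lp P X b c
        ≤ 2 * (lp P X a c + lp P X b d) := by
  have h := hpl X hX hXc a b c d hab hbc hcd hd haX hbX hcX hdX
  have p1 := lp_pos P ℓ hpos hpl hX hXc (by omega : a ≠ c) (by omega) (by omega) haX hcX
  have p2 := lp_pos P ℓ hpos hpl hX hXc (by omega : b ≠ d) (by omega) (by omega) hbX hdX
  have p3 := lp_pos P ℓ hpos hpl hX hXc (by omega : a ≠ b) (by omega) (by omega) haX hbX
  have p4 := lp_pos P ℓ hpos hpl hX hXc (by omega : c ≠ d) (by omega) (by omega) hcX hdX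
  have p5 := lp_pos P ℓ hpos hpl hX hXc (by omega : a ≠ d) (by omega) (by omega) haX hdX
  have p6 := lp_pos P ℓ hpos hpl hX hXc (by omega : b ≠ c) (by omega) (by omega) hbX hcX
  unfold lp
  set x1 := P (insert a (insert c X))
  set x2 := P (insert b (insert d X))
  set y1 := P (insert a (insert b X))
  set y2 := P (insert c (insert d X))
  set z1 := P (insert a (insert d X))
  set z2 := P (insert b (insert c X))
  have hy : 0 < y1 * y2 := mul_pos p3 p4
  have hz : 0 < z1 * z2 := mul_pos p5 p6
  refine ⟨?_, ?_, ?_⟩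
  · rw [← Real.log_mul p3.ne' p4.ne', ← Real.log_mul p1.ne' p2.ne']
    exact Real.log_le_log hy (by linarith)
  · rw [← Real.log_mul p5.ne' p6.ne', ← Real.log_mul p1.ne' p2.ne']
    exact Real.log_le_log hz (by linarith)
  · have e1 : 2 * Real.log 2 = Real.log 4 := by
      rw [show (4 : ℝ) = 2 ^ 2 by norm_num, Real.log_pow]; push_cast; ring
    have e2 : Real.log 4 + Real.log y1 + Real.log y2 + Real.log z1 + Real.log z2 =
        Real.log (4 * ((y1 * y2) * (z1 * z2))) := by
      rw [Real.log_mul (by norm_num) (mul_pos hy hz).ne', Real.log_mul hy.ne' hz.ne',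
        Real.log_mul p3.ne' p4.ne', Real.log_mul p5.ne' p6.ne']
      ring
    have e3 : 2 * (Real.log x1 + Real.log x2) = Real.log ((x1 * x2) ^ 2) := by
      rw [Real.log_pow, Real.log_mul p1.ne' p2.ne']; push_cast; ring
    rw [e1, e2, e3]
    apply Real.log_le_log (by positivity)
    rw [h]
    nlinarith [sq_nonneg (y1 * y2 - z1 * z2)]

/-- **The plaquette**, with displaced holes. -/
lemma plaquette {a a' b c c' d d' d'' : ℕ} (haa : a ≤ a') (hab : a' < b) (hbc' : b < c') (hc'c : c' ≤ c)
    (hcd' : c < d') (hd'd : d' ≤ d) (hdd'' : d ≤ d'') (hd'' : d'' < ℓ) (haX : a ∉ X) (ha'X : a' ∉ X)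
    (hbX : b ∉ X) (hcX : c ∉ X) (hc'X : c' ∉ X) (hdX : d ∉ X) (hd'X : d' ∉ X) (hd''X : d'' ∉ X) :
    2 * Real.log 2 ≤
      ((lp P X a' c - lp P X d' c) - (lp P X a' b - lp P X d' b)) +
      ((lp P X c' a - lp P X d'' a) - (lp P X c' b - lp P X d'' b)) := by
  have h0 := (three_log P ℓ hpos hpl hX hXc (by omega : a < b) (by omega : b < c) (by omega : c < d)
    (by omega) haX hbX hcX hdX).2.2
  -- displaced a
  have h1 : lp P X a c + lp P X a' b ≤ lp P X a' c + lp P X a b := by
    rcases Nat.lt_or_ge a a' with h | h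
    · have := (three_log P ℓ hpos hpl hX hXc h hab (by omega : b < c) (by omega) haX ha'X hbX hcX).2.1
      linarith
    · have : a = a' := by omega
      rw [this]
  -- displaced d to the left
  have h2 : lp P X b d + lp P X c d' ≤ lp P X b d' + lp P X c d := by
    rcases Nat.lt_or_ge d' d with h | h
    · have := (three_log P ℓ hpos hpl hX hXc (by omega : b < c) hcd' h (by omega) hbX hcX hd'X hdX).2.1
      linarith
    · have : d' = d := by omega
      rw [this]
  -- displaced c
  have h3 : lp P X a c + lp P X b c' ≤ lp P X a c' + lp P X b c := by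
    rcases Nat.lt_or_ge c' c with h | h
    · have := (three_log P ℓ hpos hpl hX hXc (by omega : a < b) hbc' h (by omega) haX hbX hc'X hcX).2.1
      linarith
    · have : c' = c := by omega
      rw [this]
  -- displaced d to the right
  have h4 : lp P X b d + lp P X a d'' ≤ lp P X b d'' + lp P X a d := by
    rcases Nat.lt_or_ge d d'' with h | h
    · have := (three_log P ℓ hpos hpl hX hXc (by omega : a < b) (by omega : b < d) h hd'' haX hbX hdX
        hd''X).2.1
      linarith
    · have : d = d'' := by omega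
      rw [this]
  rw [lp_comm P X d' c, lp_comm P X d' b, lp_comm P X c' a, lp_comm P X d'' a, lp_comm P X c' b,
    lp_comm P X d'' b]
  linarith

end plaq

end Pool.Agent.BalanWangSW
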