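import Pool.Agent.MP_686ee2_an.SW.Grid

/-!
The grid of sets, and the main combinatorial theorem.
-/

set_option autoImplicit false
set_option maxHeartbeats 1000000

open Finset Matrix

namespace Pool.Agent.BalanWangSW

open Pool.Agent.BalanWang Pool.Agent.BalanWangSC

/-- `y0` first elements, then three blocks at `oA`, `oB`, `oC`, filled from the left -/
def SX (y0 oA oB oC α β γ : ℕ) : Finset ℕ :=
  range y0 ∪ (Ico oA (oA + α) ∪ (Ico oB (oB + β) ∪ Ico oC (oC + γ)))

lemma mem_SX {y0 oA oB oC α β γ x : ℕ} : x ∈ SX y0 oA oB oC α β γ ↔ x < y0 ∨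
    (oA ≤ x ∧ x < oA + α) ∨ (oB ≤ x ∧ x < oB + β) ∨ (oC ≤ x ∧ x < oC + γ) := by
  simp only [SX, mem_union, mem_Ico, mem_range]

lemma card_SX {y0 oA oB oC α β γ : ℕ} (h1 : y0 ≤ oA) (h2 : oA + α ≤ oB) (h3 : oB + β ≤ oC) :
    (SX y0 oA oB oC α β γ).card = y0 + α + β + γ := by
  unfold SX
  rw [card_union_of_disjoint, card_union_of_disjoint, card_union_of_disjoint]
  · simp only [Nat.card_Ico, card_range]
    omega
  all_goals
    rw [disjoint_left]
    intro x hx
    simp only [mem_union, mem_Ico, mem_range] at hx ⊢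
    omega

/-- The holes of `T` at which the minor is at most `1/K` times the largest one. -/
noncomputable def Exc (P : Finset ℕ → ℝ) (ℓ : ℕ) (K : ℝ) (T : Finset ℕ) : Finset ℕ := by
  classical
  exact (range ℓ \ T).filter (fun k => ∃ k' ∈ range ℓ \ T, K * P (insert k T) ≤ P (insert k' T))

lemma exists_good (P : Finset ℕ → ℝ) (ℓ : ℕ) (K : ℝ) (T : Finset ℕ) (g : ℕ)
    (hT : (Exc P ℓ K T).card ≤ g) (W : Finset ℕ) (hW : ∀ k ∈ W, k < ℓ ∧ k ∉ T) (hWc : g + 1 ≤ W.card) :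
    ∃ k ∈ W, ∀ k' < ℓ, k' ∉ T → P (insert k' T) < K * P (insert k T) := by
  classical
  by_contra hcon
  push Not at hcon
  have : W ⊆ Exc P ℓ K T := by
    intro k hk
    obtain ⟨k', h1, h2, h3⟩ := hcon k hk
    unfold Exc
    rw [mem_filter, mem_sdiff, mem_range]
    exact ⟨hW k hk, k', by rw [mem_sdiff, mem_range]; exact ⟨h1, h2⟩, h3⟩
  have := card_le_card this
  omega

/-- **Main combinatorial theorem.** -/
theorem grid {s : ℕ} (P : Finset ℕ → ℝ) (ℓ : ℕ)
    (hpos : ∀ S ⊆ range ℓ, S.card = s + 2 → 0 < P S)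
  (hpl : ∀ X ⊆ range ℓ, X.card = s → ∀ a b c d : ℕ, a < b → b < c → c < d → d < ℓ → a ∉ X → b ∉ X →
    c ∉ X → d ∉ X → P (insert a (insert c X)) * P (insert b (insert d X)) =
      P (insert a (insert b X)) * P (insert c (insert d X)) +
        P (insert a (insert d X)) * P (insert b (insert c X))) (K : ℝ) (hK : 0 < K) (g n : ℕ) (hn : 0 < n)
    (hns : 2 * n ≤ s + 1) (hℓ : (s + 2) + 2 * n + 4 * g ≤ ℓ)
    (hexc : ∀ T ⊆ range ℓ, T.card = s + 1 → (Exc P ℓ K T).card ≤ g) :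
    n * Real.log 2 < 2 * Real.log K := by
  classical
  obtain ⟨y0, hy0⟩ : ∃ y0, y0 + 2 * n = s + 1 := ⟨s + 1 - 2 * n, by omega⟩
  obtain ⟨oB, hoB⟩ : ∃ oB, oB = y0 + n + g := ⟨_, rfl⟩
  obtain ⟨oC, hoC⟩ : ∃ oC, oC = oB + 2 * n + g := ⟨_, rfl⟩
  obtain ⟨d, hd⟩ : ∃ d, d = oC + n + g := ⟨_, rfl⟩
  have hdℓ : d + g < ℓ := by omega
  -- the sets
  set T : ℕ → ℕ → Finset ℕ := fun i j => SX y0 y0 oB oC i (2 * n - i - j) j with hT
  have hTm : ∀ {i j x : ℕ}, x ∈ T i j ↔ x < y0 ∨ (y0 ≤ x ∧ x < y0 + i) ∨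
      (oB ≤ x ∧ x < oB + (2 * n - i - j)) ∨ (oC ≤ x ∧ x < oC + j) := by
    intro i j x
    simp only [hT, mem_SX]
  have hTℓ : ∀ {i j : ℕ}, i ≤ n → j ≤ n → T i j ⊆ range ℓ := by
    intro i j hi hj x hx
    rw [hTm] at hx
    rw [mem_range]
    omega
  have hTc : ∀ {i j : ℕ}, i ≤ n → j ≤ n → (T i j).card = s + 1 := by
    intro i j hi hj
    simp only [hT]
    rw [card_SX le_rfl (by omega) (by omega)]
    omega
  have hPpos : ∀ {i j k : ℕ}, i ≤ n → j ≤ n → k < ℓ → k ∉ T i j → 0 < P (insert k (T i j)) := by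
    intro i j k hi hj hk hkT
    apply hpos
    · intro y hy
      rcases mem_insert.1 hy with rfl | hy
      · exact mem_range.2 hk
      · exact hTℓ hi hj hy
    · rw [card_insert_of_notMem hkT, hTc hi hj]
  -- good holes
  have hlog : ∀ {i j k k' : ℕ}, i ≤ n → j ≤ n → k < ℓ → k ∉ T i j → k' < ℓ → k' ∉ T i j →
      (∀ k' < ℓ, k' ∉ T i j → P (insert k' (T i j)) < K * P (insert k (T i j))) →
      Real.log (P (insert k' (T i j))) - Real.log (P (insert k (T i j))) < Real.log K := by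
    intro i j k k' hi hj hk hkT hk' hkT' hgood
    have h1 := hgood k' hk' hkT'
    have h2 := Real.log_lt_log (hPpos hi hj hk' hkT') h1
    rw [Real.log_mul hK.ne' (hPpos hi hj hk hkT).ne'] at h2
    linarith
  have ha' : ∀ i, i < n → ∃ k, y0 + i ≤ k ∧ k < oB ∧
      ∀ k' < ℓ, k' ∉ T i 0 → P (insert k' (T i 0)) < K * P (insert k (T i 0)) := by
    intro i hi
    obtain ⟨k, hk, hk2⟩ := exists_good P ℓ K (T i 0) g (hexc _ (hTℓ hi.le (Nat.zero_le _))
      (hTc hi.le (Nat.zero_le _))) (Ico (y0 + i) oB) (by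
        intro k hk
        rw [mem_Ico] at hk
        refine ⟨by omega, ?_⟩
        rw [hTm]; omega) (by rw [Nat.card_Ico]; omega)
    rw [mem_Ico] at hk
    exact ⟨k, hk.1, hk.2, hk2⟩
  have hd' : ∀ i, i < n → ∃ k, oC + n ≤ k ∧ k ≤ d ∧
      ∀ k' < ℓ, k' ∉ T i n → P (insert k' (T i n)) < K * P (insert k (T i n)) := by
    intro i hi
    obtain ⟨k, hk, hk2⟩ := exists_good P ℓ K (T i n) g (hexc _ (hTℓ hi.le le_rfl)
      (hTc hi.le le_rfl)) (Ico (oC + n) (d + 1)) (by
        intro k hk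
        rw [mem_Ico] at hk
        refine ⟨by omega, ?_⟩
        rw [hTm]; omega) (by rw [Nat.card_Ico]; omega)
    rw [mem_Ico] at hk
    exact ⟨k, hk.1, by omega, hk2⟩
  have hc' : ∀ j, j < n → ∃ k, oB + 2 * n ≤ k ∧ k ≤ oC + j ∧ k ∉ Ico oC (oC + j) ∧
      ∀ k' < ℓ, k' ∉ T 0 j → P (insert k' (T 0 j)) < K * P (insert k (T 0 j)) := by
    intro j hj
    obtain ⟨k, hk, hk2⟩ := exists_good P ℓ K (T 0 j) g (hexc _ (hTℓ (Nat.zero_le _) hj.le)
      (hTc (Nat.zero_le _) hj.le)) (insert (oC + j) (Ico (oB + 2 * n) oC)) (by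
        intro k hk
        rw [mem_insert, mem_Ico] at hk
        refine ⟨by omega, ?_⟩
        rw [hTm]; omega) (by
          rw [card_insert_of_notMem (by rw [mem_Ico]; omega), Nat.card_Ico]; omega)
    rw [mem_insert, mem_Ico] at hk
    refine ⟨k, by omega, by omega, ?_, hk2⟩
    rw [mem_Ico]; omega
  have hd'' : ∀ j, j < n → ∃ k, d ≤ k ∧ k < ℓ ∧
      ∀ k' < ℓ, k' ∉ T n j → P (insert k' (T n j)) < K * P (insert k (T n j)) := by
    intro j hj
    obtain ⟨k, hk, hk2⟩ := exists_good P ℓ K (T n j) g (hexc _ (hTℓ le_rfl hj.le)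
      (hTc le_rfl hj.le)) (Ico d (d + g + 1)) (by
        intro k hk
        rw [mem_Ico] at hk
        refine ⟨by omega, ?_⟩
        rw [hTm]; omega) (by rw [Nat.card_Ico]; omega)
    rw [mem_Ico] at hk
    exact ⟨k, hk.1, by omega, hk2⟩
  choose! a1 ha1 using ha'
  choose! d1 hd1 using hd'
  choose! c1 hc1 using hc'
  choose! d2 hd2 using hd''
  set E : ℕ → ℕ → ℝ := fun i j =>
    Real.log (P (insert (a1 i) (T i j))) - Real.log (P (insert (d1 i) (T i j))) with hE
  set E' : ℕ → ℕ → ℝ := fun j i =>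
    Real.log (P (insert (c1 j) (T i j))) - Real.log (P (insert (d2 j) (T i j))) with hE'
  have hrow : ∀ i ∈ range n, E i n - E i 0 < 2 * Real.log K := by
    intro i hi
    rw [mem_range] at hi
    obtain ⟨p1, p2, p3⟩ := ha1 i hi
    obtain ⟨q1, q2, q3⟩ := hd1 i hi
    have h1 := hlog (k := d1 i) (k' := a1 i) hi.le le_rfl (by omega) (by rw [hTm]; omega) (by omega)
      (by rw [hTm]; omega) q3
    have h2 := hlog (k := a1 i) (k' := d1 i) hi.le (Nat.zero_le _) (by omega) (by rw [hTm]; omega)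
      (by omega) (by rw [hTm]; omega) p3
    simp only [hE]
    linarith
  have hcol : ∀ j ∈ range n, E' j n - E' j 0 < 2 * Real.log K := by
    intro j hj
    rw [mem_range] at hj
    obtain ⟨p1, p2, p4, p3⟩ := hc1 j hj
    rw [mem_Ico] at p4
    obtain ⟨q1, q2, q3⟩ := hd2 j hj
    have h1 := hlog (k := d2 j) (k' := c1 j) le_rfl hj.le (by omega) (by rw [hTm]; omega) (by omega)
      (by rw [hTm]; omega) q3
    have h2 := hlog (k := c1 j) (k' := d2 j) (Nat.zero_le _) hj.le (by omega) (by rw [hTm]; omega)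
      (by omega) (by rw [hTm]; omega) p3
    simp only [hE']
    linarith
  have hplaq : ∀ i ∈ range n, ∀ j ∈ range n, 2 * Real.log 2 ≤
      (E i (j + 1) - E i j) + (E' j (i + 1) - E' j i) := by
    intro i hi j hj
    rw [mem_range] at hi hj
    obtain ⟨a1p, a1q, -⟩ := ha1 i hi
    obtain ⟨d1p, d1q, -⟩ := hd1 i hi
    obtain ⟨c1p, c1q, c1r, -⟩ := hc1 j hj
    rw [mem_Ico] at c1r
    obtain ⟨d2p, d2q, -⟩ := hd2 j hj
    set X := SX y0 y0 oB oC i (2 * n - 1 - i - j) j with hX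
    have hXm : ∀ {x : ℕ}, x ∈ X ↔ x < y0 ∨ (y0 ≤ x ∧ x < y0 + i) ∨
        (oB ≤ x ∧ x < oB + (2 * n - 1 - i - j)) ∨ (oC ≤ x ∧ x < oC + j) := by
      intro x
      rw [hX, mem_SX]
    have hXℓ : X ⊆ range ℓ := by
      intro x hx
      rw [hXm] at hx
      rw [mem_range]
      omega
    have hXc : X.card = s := by
      rw [hX, card_SX le_rfl (by omega) (by omega)]
      omega
    have eb : T i j = insert (oB + (2 * n - 1 - i - j)) X := by
      ext x
      rw [hTm, mem_insert, hXm]; omega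
    have ec : T i (j + 1) = insert (oC + j) X := by
      ext x
      rw [hTm, mem_insert, hXm]; omega
    have ea : T (i + 1) j = insert (y0 + i) X := by
      ext x
      rw [hTm, mem_insert, hXm]; omega
    have h := plaquette P ℓ hpos hpl hXℓ hXc (a := y0 + i) (a' := a1 i) (b := oB + (2 * n - 1 - i - j))
      (c := oC + j) (c' := c1 j) (d := d) (d' := d1 i) (d'' := d2 j) a1p (by omega) (by omega)
      (by omega) (by omega) d1q d2p d2q (by rw [hXm]; omega) (by rw [hXm]; omega)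
      (by rw [hXm]; omega) (by rw [hXm]; omega) (by rw [hXm]; omega) (by rw [hXm]; omega)
      (by rw [hXm]; omega) (by rw [hXm]; omega)
    simp only [hE, hE', eb, ec, ea]
    exact h
  have hsum : ∑ i ∈ range n, ∑ j ∈ range n, 2 * Real.log 2 ≤
      ∑ i ∈ range n, ∑ j ∈ range n, ((E i (j + 1) - E i j) + (E' j (i + 1) - E' j i)) :=
    sum_le_sum fun i hi => sum_le_sum fun j hj => hplaq i hi j hj
  have hsum2 : ∑ i ∈ range n, ∑ j ∈ range n, ((E i (j + 1) - E i j) + (E' j (i + 1) - E' j i)) =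
      ∑ i ∈ range n, (E i n - E i 0) + ∑ j ∈ range n, (E' j n - E' j 0) := by
    simp only [sum_add_distrib]
    congr 1
    · refine sum_congr rfl fun i _ => ?_
      rw [sum_range_sub (fun j => E i j)]
    · rw [sum_comm]
      refine sum_congr rfl fun j _ => ?_
      rw [sum_range_sub (fun i => E' j i)]
  have hne : (range n).Nonempty := ⟨0, mem_range.2 hn⟩
  have hr : ∑ i ∈ range n, (E i n - E i 0) < ∑ _i ∈ range n, 2 * Real.log K :=
    sum_lt_sum_of_nonempty hne hrow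
  have hc : ∑ j ∈ range n, (E' j n - E' j 0) < ∑ _j ∈ range n, 2 * Real.log K :=
    sum_lt_sum_of_nonempty hne hcol
  rw [hsum2] at hsum
  simp only [sum_const, card_range, nsmul_eq_mul] at hsum hr hc
  have hn0 : (0 : ℝ) < n := by exact_mod_cast hn
  have h5 : (n : ℝ) * (2 * (n * Real.log 2)) < n * (2 * (2 * Real.log K)) := by nlinarith
  have h6 := lt_of_mul_lt_mul_left h5 hn0.le
  linarith

end Pool.Agent.BalanWangSW
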