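import Pool.Agent.MP_686ee2_an.SW.Cyc
import Pool.Agent.MP_686ee2_an.SW.Main

/-!
One hub.
-/

set_option autoImplicit false
set_option maxHeartbeats 1000000

open Finset Matrix

namespace Pool.Agent.BalanWangSW

open Pool.Agent.BalanWang Pool.Agent.BalanWangSC

/-- the hub at `o` -/
def Hub (n σ o lam rho : ℕ) : Finset ℕ :=
  Ico o (o + lam) ∪ (Ico (o + n + σ) (o + n + σ + (2 * n - lam - rho)) ∪
    Ico (o + 3 * n + 2 * σ) (o + 3 * n + 2 * σ + rho))

lemma mem_Hub {n σ o lam rho x : ℕ} : x ∈ Hub n σ o lam rho ↔ (o ≤ x ∧ x < o + lam) ∨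
    (o + n + σ ≤ x ∧ x < o + n + σ + (2 * n - lam - rho)) ∨
    (o + 3 * n + 2 * σ ≤ x ∧ x < o + 3 * n + 2 * σ + rho) := by
  simp only [Hub, mem_union, mem_Ico]

lemma card_Hub {n σ o lam rho : ℕ} (h1 : lam ≤ n) (h2 : rho ≤ n) :
    (Hub n σ o lam rho).card = 2 * n := by
  unfold Hub
  rw [card_union_of_disjoint, card_union_of_disjoint]
  · simp only [Nat.card_Ico]
    omega
  all_goals
    rw [disjoint_left]
    intro x hx
    simp only [mem_union, mem_Ico] at hx ⊢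
    omega

/-- a hole at which the minor is nearly the largest one -/
def Good (P : Finset ℕ → ℝ) (ℓ : ℕ) (K : ℝ) (T : Finset ℕ) (k : ℕ) : Prop :=
  k < ℓ ∧ k ∉ T ∧ ∀ k' < ℓ, k' ∉ T → P (insert k' T) < K * P (insert k T)

lemma exists_good' (P : Finset ℕ → ℝ) (ℓ : ℕ) (K : ℝ) (T : Finset ℕ) (g : ℕ)
    (hT : (Exc P ℓ K T).card ≤ g) (W : Finset ℕ) (hW : ∀ k ∈ W, k < ℓ ∧ k ∉ T) (hWc : g + 1 ≤ W.card) :
    ∃ k ∈ W, Good P ℓ K T k := by
  obtain ⟨k, hk, hk2⟩ := exists_good P ℓ K T g hT W hW hWc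
  exact ⟨k, hk, (hW k hk).1, (hW k hk).2, hk2⟩

/-- **One hub.** -/
theorem hub_bound {s : ℕ} (P : Finset ℕ → ℝ) (ℓ : ℕ)
    (hpos : ∀ S ⊆ range ℓ, S.card = s + 2 → 0 < P S)
  (hpl : ∀ X ⊆ range ℓ, X.card = s → ∀ a b c d : ℕ, a < b → b < c → c < d → d < ℓ → a ∉ X → b ∉ X →
    c ∉ X → d ∉ X → P (insert a (insert c X)) * P (insert b (insert d X)) =
      P (insert a (insert b X)) * P (insert c (insert d X)) +
        P (insert a (insert d X)) * P (insert b (insert c X))) (K : ℝ) (hK : 0 < K) (g n σ o : ℕ)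
    (Y : Finset ℕ) (hY : Y ⊆ range ℓ) (hYo : ∀ y ∈ Y, ¬ (o ≤ y ∧ y < o + (4 * n + 2 * σ)))
    (ho : o + (4 * n + 2 * σ) ≤ ℓ) (hYc : Y.card + 2 * n = s + 1)
    (hℓ : s + 1 + 2 * n + 2 * σ + 2 * g + 1 ≤ ℓ)
    (hexc : ∀ T ⊆ range ℓ, T.card = s + 1 → (Exc P ℓ K T).card ≤ g)
    (lam0 rho0 : ℕ) (hlam0 : lam0 ≤ n) (hrho0 : rho0 ≤ n) (I J : Finset ℕ)
    (hI : ∀ x ∈ I, lam0 ≤ x ∧ x < n) (hJ : ∀ x ∈ J, rho0 ≤ x ∧ x < n)
    (hIg : ∀ x ∈ I, ∃ k, o + n ≤ k ∧ k < o + n + σ ∧ Good P ℓ K (Y ∪ Hub n σ o x rho0) k)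
    (hJg : ∀ x ∈ J, ∃ k, o + 3 * n + σ ≤ k ∧ k < o + 3 * n + 2 * σ ∧
      Good P ℓ K (Y ∪ Hub n σ o lam0 x) k)
    (t : ℕ) (ht : 0 < t) (hIc : I.card = t) (hJc : J.card = t) :
    t * Real.log 2 < 2 * Real.log K := by
  classical
  -- the sets
  set T : ℕ → ℕ → Finset ℕ := fun i j => Y ∪ Hub n σ o i j with hT
  have hTm : ∀ {i j x : ℕ}, x ∈ T i j ↔ x ∈ Y ∨ (o ≤ x ∧ x < o + i) ∨
      (o + n + σ ≤ x ∧ x < o + n + σ + (2 * n - i - j)) ∨
      (o + 3 * n + 2 * σ ≤ x ∧ x < o + 3 * n + 2 * σ + j) := by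
    intro i j x
    simp only [hT, mem_union, mem_Hub]
  have hYout : ∀ {x : ℕ}, o ≤ x → x < o + (4 * n + 2 * σ) → x ∉ Y := fun h1 h2 h => hYo _ h ⟨h1, h2⟩
  have hTℓ : ∀ {i j : ℕ}, i ≤ n → j ≤ n → T i j ⊆ range ℓ := by
    intro i j hi hj x hx
    rw [hTm] at hx
    rcases hx with hx | hx
    · exact hY hx
    · rw [mem_range]
      omega
  have hYH : ∀ {i j : ℕ}, i ≤ n → j ≤ n → Disjoint Y (Hub n σ o i j) := by
    intro i j hi hj
    rw [disjoint_left]
    intro x hx hx2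
    rw [mem_Hub] at hx2
    exact hYo x hx (by omega)
  have hTc : ∀ {i j : ℕ}, i ≤ n → j ≤ n → (T i j).card = s + 1 := by
    intro i j hi hj
    simp only [hT]
    rw [card_union_of_disjoint (hYH hi hj), card_Hub hi hj]
    exact hYc
  have hPpos : ∀ {i j k : ℕ}, i ≤ n → j ≤ n → k < ℓ → k ∉ T i j → 0 < P (insert k (T i j)) := by
    intro i j k hi hj hk hkT
    apply hpos
    · intro y hy
      rcases mem_insert.1 hy with rfl | hy
      · exact mem_range.2 hk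
      · exact hTℓ hi hj hy
    · rw [card_insert_of_notMem hkT, hTc hi hj]
  have hlog : ∀ {i j k k' : ℕ}, i ≤ n → j ≤ n → Good P ℓ K (T i j) k → k' < ℓ → k' ∉ T i j →
      Real.log (P (insert k' (T i j))) - Real.log (P (insert k (T i j))) < Real.log K := by
    intro i j k k' hi hj hgood hk' hkT'
    obtain ⟨hk, hkT, hg⟩ := hgood
    have h2 := Real.log_lt_log (hPpos hi hj hk' hkT') (hg k' hk' hkT')
    rw [Real.log_mul hK.ne' (hPpos hi hj hk hkT).ne'] at h2
    linarith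
  -- the outer holes
  set O : Finset ℕ := (range ℓ).filter (fun x => x ∉ Y ∧ ¬ (o ≤ x ∧ x < o + (4 * n + 2 * σ))) with hO
  have hOm : ∀ {x : ℕ}, x ∈ O ↔ x < ℓ ∧ x ∉ Y ∧ ¬ (o ≤ x ∧ x < o + (4 * n + 2 * σ)) := by
    intro x
    rw [hO, mem_filter, mem_range]
  have hOc : 2 * g + 1 ≤ O.card := by
    have h1 : range ℓ ⊆ (O ∪ Y) ∪ Ico o (o + (4 * n + 2 * σ)) := by
      intro x hx
      rw [mem_union, mem_union, hOm, mem_Ico]
      rw [mem_range] at hx
      by_cases h1 : x ∈ Y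
      · exact Or.inl (Or.inr h1)
      · by_cases h2 : o ≤ x ∧ x < o + (4 * n + 2 * σ)
        · exact Or.inr h2
        · exact Or.inl (Or.inl ⟨hx, h1, h2⟩)
    have h2 := card_le_card h1
    have h3 := card_union_le (O ∪ Y) (Ico o (o + (4 * n + 2 * σ)))
    have h4 := card_union_le O Y
    rw [card_range] at h2
    rw [Nat.card_Ico] at h3
    omega
  set key : ℕ → ℕ := fun x => if x < o then x + ℓ else x with hkey
  have hkinj : ∀ x ∈ O, ∀ y ∈ O, key x = key y → x = y := by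
    intro x hx y hy hxy
    rw [hOm] at hx hy
    simp only [hkey] at hxy
    split_ifs at hxy <;> omega
  have hO'c : 2 * g + 1 ≤ (O.image key).card := by
    rw [card_image_of_injOn]
    · exact hOc
    · intro x hx y hy hxy
      exact hkinj x hx y hy hxy
  obtain ⟨x', hx', hc1, hc2⟩ := exists_split (O.image key) g hO'c
  rw [mem_image] at hx'
  obtain ⟨d, hdO, rfl⟩ := hx'
  set W1 := O.filter (fun y => key y ≤ key d) with hW1
  set W2 := O.filter (fun y => key d ≤ key y) with hW2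
  have hW1c : g + 1 ≤ W1.card := by
    refine hc1.trans ((card_le_card ?_).trans (card_image_le (s := W1) (f := key)))
    intro z hz
    rw [mem_filter, mem_image] at hz
    obtain ⟨⟨y, hy, rfl⟩, hz2⟩ := hz
    exact mem_image_of_mem _ (mem_filter.2 ⟨hy, hz2⟩)
  have hW2c : g + 1 ≤ W2.card := by
    refine hc2.trans ((card_le_card ?_).trans (card_image_le (s := W2) (f := key)))
    intro z hz
    rw [mem_filter, mem_image] at hz
    obtain ⟨⟨y, hy, rfl⟩, hz2⟩ := hz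
    exact mem_image_of_mem _ (mem_filter.2 ⟨hy, hz2⟩)
  have hOT : ∀ {x i j : ℕ}, i ≤ n → j ≤ n → x ∈ O → x < ℓ ∧ x ∉ T i j := by
    intro x i j hi hj hx
    rw [hOm] at hx
    refine ⟨hx.1, ?_⟩
    rw [hTm]
    rintro (h | h)
    · exact hx.2.1 h
    · exact hx.2.2 (by omega)
  have hd1 : ∀ i ∈ I, ∃ k ∈ W1, Good P ℓ K (T i n) k := by
    intro i hi
    exact exists_good' P ℓ K (T i n) g (hexc _ (hTℓ (hI i hi).2.le le_rfl) (hTc (hI i hi).2.le le_rfl))
      W1 (fun k hk => hOT (hI i hi).2.le le_rfl (mem_filter.1 hk).1) hW1c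
  have hd2 : ∀ j ∈ J, ∃ k ∈ W2, Good P ℓ K (T n j) k := by
    intro j hj
    exact exists_good' P ℓ K (T n j) g (hexc _ (hTℓ le_rfl (hJ j hj).2.le) (hTc le_rfl (hJ j hj).2.le))
      W2 (fun k hk => hOT le_rfl (hJ j hj).2.le (mem_filter.1 hk).1) hW2c
  choose! a1 ha1 using hIg
  choose! c1 hc1' using hJg
  choose! d1 hd1' using hd1
  choose! d2 hd2' using hd2
  set E : ℕ → ℕ → ℝ := fun i j =>
    Real.log (P (insert (a1 i) (T i j))) - Real.log (P (insert (d1 i) (T i j))) with hE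
  set E' : ℕ → ℕ → ℝ := fun j i =>
    Real.log (P (insert (c1 j) (T i j))) - Real.log (P (insert (d2 j) (T i j))) with hE'
  have haT : ∀ {i j k : ℕ}, i ≤ n → j ≤ n → o + n ≤ k → k < o + n + σ → k < ℓ ∧ k ∉ T i j := by
    intro i j k hi hj h1 h2
    refine ⟨by omega, ?_⟩
    rw [hTm]
    rintro (h | h)
    · exact hYout (by omega) (by omega) h
    · omega
  have hcT : ∀ {i j k : ℕ}, i ≤ n → j ≤ n → o + 3 * n + σ ≤ k → k < o + 3 * n + 2 * σ →
      k < ℓ ∧ k ∉ T i j := by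
    intro i j k hi hj h1 h2
    refine ⟨by omega, ?_⟩
    rw [hTm]
    rintro (h | h)
    · exact hYout (by omega) (by omega) h
    · omega
  have hrow : ∀ i ∈ I, E i n - E i rho0 < 2 * Real.log K := by
    intro i hi
    obtain ⟨p1, p2, p3⟩ := ha1 i hi
    obtain ⟨q1, q2⟩ := hd1' i hi
    have hin := (hI i hi).2.le
    have h1 := hlog hin le_rfl q2 (haT hin le_rfl p1 p2).1 (haT hin le_rfl p1 p2).2
    have h2 := hlog hin hrho0 p3 (hOT hin hrho0 (mem_filter.1 q1).1).1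
      (hOT hin hrho0 (mem_filter.1 q1).1).2
    simp only [hE]
    linarith
  have hcol : ∀ j ∈ J, E' j n - E' j lam0 < 2 * Real.log K := by
    intro j hj
    obtain ⟨p1, p2, p3⟩ := hc1' j hj
    obtain ⟨q1, q2⟩ := hd2' j hj
    have hjn := (hJ j hj).2.le
    have h1 := hlog le_rfl hjn q2 (hcT le_rfl hjn p1 p2).1 (hcT le_rfl hjn p1 p2).2
    have h2 := hlog hlam0 hjn p3 (hOT hlam0 hjn (mem_filter.1 q1).1).1
      (hOT hlam0 hjn (mem_filter.1 q1).1).2
    simp only [hE']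
    linarith
  -- the sets `X`
  have hX : ∀ i j, i < n → j < n → ∃ X ⊆ range ℓ, X.card = s ∧
      T i j = insert (o + n + σ + (2 * n - 1 - i - j)) X ∧
      T i (j + 1) = insert (o + 3 * n + 2 * σ + j) X ∧ T (i + 1) j = insert (o + i) X ∧
      o + n + σ + (2 * n - 1 - i - j) ∉ X ∧ ∀ x, x ∉ T i j → x ∉ X := by
    intro i j hi hj
    have hbT : o + n + σ + (2 * n - 1 - i - j) ∈ T i j := by
      rw [hTm]; omega
    refine ⟨(T i j).erase (o + n + σ + (2 * n - 1 - i - j)), ?_, ?_, ?_, ?_, ?_, ?_, ?_⟩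
    · exact (erase_subset _ _).trans (hTℓ hi.le hj.le)
    · rw [card_erase_of_mem hbT, hTc hi.le hj.le]
      omega
    · rw [insert_erase hbT]
    · ext x
      rw [mem_insert, mem_erase, hTm, hTm]
      by_cases hx : x ∈ Y
      · have := hYo x hx
        simp only [hx, true_or, and_true, true_iff]
        omega
      · simp only [hx, false_or]
        omega
    · ext x
      rw [mem_insert, mem_erase, hTm, hTm]
      by_cases hx : x ∈ Y
      · have := hYo x hx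
        simp only [hx, true_or, and_true, true_iff]
        omega
      · simp only [hx, false_or]
        omega
    · exact notMem_erase _ _
    · intro x hx hx2
      exact hx (mem_of_mem_erase hx2)
  have hout : ∀ {x : ℕ}, x ∈ O → x < ℓ ∧ (x < o ∨ o + (4 * n + 2 * σ) ≤ x) := by
    intro x hx
    rw [hOm] at hx
    refine ⟨hx.1, ?_⟩
    omega
  have hrow0 : ∀ i ∈ I, ∀ j ∈ Ico rho0 n, 0 ≤ E i (j + 1) - E i j := by
    intro i hi j hj
    rw [mem_Ico] at hj
    have hin := (hI i hi).2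
    obtain ⟨X, hXℓ, hXc, e1, e2, -, hbX, hTX⟩ := hX i j hin hj.2
    obtain ⟨p1, p2, -⟩ := ha1 i hi
    obtain ⟨q1, -⟩ := hd1' i hi
    have q3 := hout (mem_filter.1 q1).1
    have hcT' : o + 3 * n + 2 * σ + j ∉ T i j := by
      rw [hTm]
      rintro (h | h)
      · exact hYout (by omega) (by omega) h
      · omega
    have h := (three_cyc P ℓ hpos hpl hXℓ hXc (a := a1 i) (b := o + n + σ + (2 * n - 1 - i - j))
      (c := o + 3 * n + 2 * σ + j) (d := d1 i) (by unfold Cyc; omega) (by omega) (by omega) (by omega)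
      q3.1 (hTX _ (haT hin.le hj.2.le p1 p2).2) hbX (hTX _ hcT')
      (hTX _ (hOT hin.le hj.2.le (mem_filter.1 q1).1).2)).1
    simp only [hE, e1, e2]
    change 0 ≤ (lp P X (a1 i) _ - lp P X (d1 i) _) - (lp P X (a1 i) _ - lp P X (d1 i) _)
    rw [lp_comm P X (d1 i), lp_comm P X (d1 i)]
    linarith
  have hcol0 : ∀ j ∈ J, ∀ i ∈ Ico lam0 n, 0 ≤ E' j (i + 1) - E' j i := by
    intro j hj i hi
    rw [mem_Ico] at hi
    have hjn := (hJ j hj).2
    obtain ⟨X, hXℓ, hXc, e1, -, e2, hbX, hTX⟩ := hX i j hi.2 hjn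
    obtain ⟨p1, p2, -⟩ := hc1' j hj
    obtain ⟨q1, -⟩ := hd2' j hj
    have q3 := hout (mem_filter.1 q1).1
    have haT' : o + i ∉ T i j := by
      rw [hTm]
      rintro (h | h)
      · exact hYout (by omega) (by omega) h
      · omega
    have h := (three_cyc P ℓ hpos hpl hXℓ hXc (a := o + i) (b := o + n + σ + (2 * n - 1 - i - j))
      (c := c1 j) (d := d2 j) (by unfold Cyc; omega) (by omega) (by omega) (by omega)
      q3.1 (hTX _ haT') hbX (hTX _ (hcT hi.2.le hjn.le p1 p2).2)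
      (hTX _ (hOT hi.2.le hjn.le (mem_filter.1 q1).1).2)).2.1
    simp only [hE', e1, e2]
    change 0 ≤ (lp P X (c1 j) _ - lp P X (d2 j) _) - (lp P X (c1 j) _ - lp P X (d2 j) _)
    rw [lp_comm P X (d2 j), lp_comm P X (c1 j), lp_comm P X (c1 j), lp_comm P X (d2 j)]
    linarith
  have hplaq : ∀ i ∈ I, ∀ j ∈ J, 2 * Real.log 2 ≤
      (E i (j + 1) - E i j) + (E' j (i + 1) - E' j i) := by
    intro i hi j hj
    have hin := (hI i hi).2
    have hjn := (hJ j hj).2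
    obtain ⟨X, hXℓ, hXc, e1, e2, e3, hbX, hTX⟩ := hX i j hin hjn
    obtain ⟨p1, p2, -⟩ := ha1 i hi
    obtain ⟨p1', p2', -⟩ := hc1' j hj
    obtain ⟨q1, -⟩ := hd1' i hi
    obtain ⟨q1', -⟩ := hd2' j hj
    have q3 := hout (mem_filter.1 q1).1
    have q3' := hout (mem_filter.1 q1').1
    have q4 := (mem_filter.1 q1).2
    have q4' := (mem_filter.1 q1').2
    have q0 := hout hdO
    simp only [hkey] at q4 q4'
    have hcT' : o + 3 * n + 2 * σ + j ∉ T i j := by
      rw [hTm]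
      rintro (h | h)
      · exact hYout (by omega) (by omega) h
      · omega
    have haT' : o + i ∉ T i j := by
      rw [hTm]
      rintro (h | h)
      · exact hYout (by omega) (by omega) h
      · omega
    have h := plaquette_cyc P ℓ hpos hpl hXℓ hXc (a := o + i) (a' := a1 i)
      (b := o + n + σ + (2 * n - 1 - i - j)) (c := o + 3 * n + 2 * σ + j) (c' := c1 j) (d := d)
      (d' := d1 i) (d'' := d2 j) (by omega) (by omega) (by omega) (by omega)
      (by unfold Cyc; omega) (by unfold Cyc; split_ifs at q4 <;> omega)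
      (by unfold Cyc; split_ifs at q4' <;> omega) (by omega) q0.1 q3.1 q3'.1
      (hTX _ haT') (hTX _ (haT hin.le hjn.le p1 p2).2) hbX (hTX _ hcT')
      (hTX _ (hcT hin.le hjn.le p1' p2').2) (hTX _ (hOT hin.le hjn.le hdO).2)
      (hTX _ (hOT hin.le hjn.le (mem_filter.1 q1).1).2)
      (hTX _ (hOT hin.le hjn.le (mem_filter.1 q1').1).2)
    simp only [hE, hE', e1, e2, e3]
    exact h
  -- the sum
  have hsum : ∑ i ∈ I, ∑ j ∈ J, 2 * Real.log 2 ≤
      ∑ i ∈ I, ∑ j ∈ J, ((E i (j + 1) - E i j) + (E' j (i + 1) - E' j i)) :=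
    sum_le_sum fun i hi => sum_le_sum fun j hj => hplaq i hi j hj
  have hJsub : J ⊆ Ico rho0 n := fun x hx => mem_Ico.2 (hJ x hx)
  have hIsub : I ⊆ Ico lam0 n := fun x hx => mem_Ico.2 (hI x hx)
  have hsum2 : ∑ i ∈ I, ∑ j ∈ J, ((E i (j + 1) - E i j) + (E' j (i + 1) - E' j i)) ≤
      ∑ i ∈ I, (E i n - E i rho0) + ∑ j ∈ J, (E' j n - E' j lam0) := by
    simp only [sum_add_distrib]
    apply add_le_add
    · refine sum_le_sum fun i hi => ?_
      rw [← sum_Ico_sub (fun j => E i j) hrho0]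
      exact sum_le_sum_of_subset_of_nonneg hJsub fun j hj _ => hrow0 i hi j hj
    · rw [sum_comm]
      refine sum_le_sum fun j hj => ?_
      rw [← sum_Ico_sub (fun i => E' j i) hlam0]
      exact sum_le_sum_of_subset_of_nonneg hIsub fun i hi _ => hcol0 j hj i hi
  have hIne : I.Nonempty := by rw [← card_pos, hIc]; exact ht
  have hJne : J.Nonempty := by rw [← card_pos, hJc]; exact ht
  have hr : ∑ i ∈ I, (E i n - E i rho0) < ∑ _i ∈ I, 2 * Real.log K :=
    sum_lt_sum_of_nonempty hIne hrow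
  have hc : ∑ j ∈ J, (E' j n - E' j lam0) < ∑ _j ∈ J, 2 * Real.log K :=
    sum_lt_sum_of_nonempty hJne hcol
  have h3 := hsum.trans hsum2
  simp only [sum_const, hIc, hJc, nsmul_eq_mul] at h3 hr hc
  have hn0 : (0 : ℝ) < t := by exact_mod_cast ht
  have h5 : (t : ℝ) * (2 * (t * Real.log 2)) < t * (2 * (2 * Real.log K)) := by nlinarith
  have h6 := lt_of_mul_lt_mul_left h5 hn0.le
  linarith

end Pool.Agent.BalanWangSW
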