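import Pool.Agent.MP_686ee2_an.SW.Weak

/-!
The theorems for weakly alternating families.
-/

set_option autoImplicit false
set_option maxHeartbeats 1000000

open Finset Matrix

namespace Pool.Agent.BalanWangSW

open Pool.Agent.BalanWang Pool.Agent.BalanWangSC

/-- The rows `u k` of `A`, acted on by `G` (with signs); the other rows are kept. -/
noncomputable def act {N M ℓ : ℕ} (u : Fin ℓ → Fin N) (η : Fin ℓ → ℝ) (A : Matrix (Fin N) (Fin M) ℝ)
    (G : Matrix (Fin ℓ) (Fin ℓ) ℝ) : Matrix (Fin N) (Fin M) ℝ :=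
  Matrix.of fun i l => Function.extend u (fun k => η k * ∑ j, G k j * (η j * A (u j) l))
    (fun i => A i l) i

section

variable {N M ℓ : ℕ} (u : Fin ℓ → Fin N) (hu : Function.Injective u) (η : Fin ℓ → ℝ)
  (A : Matrix (Fin N) (Fin M) ℝ)

include hu in
lemma act_apply (G : Matrix (Fin ℓ) (Fin ℓ) ℝ) (k : Fin ℓ) (l : Fin M) :
    act u η A G (u k) l = η k * ∑ j, G k j * (η j * A (u j) l) := by
  unfold act
  rw [Matrix.of_apply, hu.extend_apply]

lemma act_apply' (G : Matrix (Fin ℓ) (Fin ℓ) ℝ) {i : Fin N} (hi : ¬ ∃ k, u k = i) (l : Fin M) :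
    act u η A G i l = A i l := by
  unfold act
  rw [Matrix.of_apply, Function.extend_apply' _ _ _ hi]

include hu in
lemma act_one (hη2 : ∀ k, η k * η k = 1) : act u η A 1 = A := by
  ext i l
  by_cases hi : ∃ k, u k = i
  · obtain ⟨k, rfl⟩ := hi
    rw [act_apply u hu, sum_eq_single k]
    · rw [Matrix.one_apply_eq, one_mul, ← mul_assoc, hη2, one_mul]
    · intro j _ hj
      rw [Matrix.one_apply_ne hj.symm, zero_mul]
    · intro h; exact absurd (mem_univ _) h
  · rw [act_apply' u η A 1 hi]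

include hu in
lemma act_cont : Continuous (fun G : Matrix (Fin ℓ) (Fin ℓ) ℝ => act u η A G) := by
  refine continuous_matrix fun i l => ?_
  by_cases hi : ∃ k, u k = i
  · obtain ⟨k, rfl⟩ := hi
    simp only [act_apply u hu]
    refine continuous_const.mul (continuous_finset_sum _ fun j _ => Continuous.mul ?_ continuous_const)
    exact continuous_id.matrix_elem k j
  · simp only [act_apply' u η A _ hi]
    exact continuous_const

end

/-- From the perturbed matrices to the matrix. -/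
lemma limit {M ℓ r : ℕ} (A : Matrix (Fin (2 * M - 1)) (Fin M) ℝ)
    (u : Fin ℓ → Fin (2 * M - 1)) (hu : Function.Injective u) (η : Fin ℓ → ℝ)
    (hη2 : ∀ k, η k * η k = 1) (W : Matrix (Fin ℓ) (Fin (r + 1)) ℝ)
    (h0 : ∀ S ⊆ range ℓ, S.card = r + 1 → 0 ≤ PS (rowsM W) S)
    (hpos : ∃ S ⊆ range ℓ, S.card = r + 1 ∧ 0 < PS (rowsM W) S) (b : ℝ)
    (h : ∀ G : Matrix (Fin ℓ) (Fin ℓ) ℝ,
      (∀ S ⊆ range ℓ, S.card = r + 1 → 0 < PS (rowsM (G * W)) S) → ConclC (act u η A G) b) :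
    ConclC A b := by
  have h1 := approx _ W h0 hpos le_rfl
  have h2 : IsClosed {G : Matrix (Fin ℓ) (Fin ℓ) ℝ | ConclC (act u η A G) b} :=
    (conclC_closed b).preimage (act_cont u hu η A)
  have h3 : (1 : Matrix (Fin ℓ) (Fin ℓ) ℝ) ∈ {G : Matrix (Fin ℓ) (Fin ℓ) ℝ | ConclC (act u η A G) b} :=
    closure_minimal (fun G hG => h G hG) h2 h1
  have h4 : ConclC (act u η A 1) b := h3
  rw [act_one u hu η A hη2] at h4
  exact h4

/-- **The column space contains a weakly alternating family.** -/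
theorem weak_in {M m : ℕ} (hM : 1 ≤ M) (A : Matrix (Fin (2 * M - 1)) (Fin M) ℝ)
    (B : Matrix (Fin (2 * M - 1)) (Fin m) ℝ) (C : Matrix (Fin M) (Fin m) ℝ) (hC : A * C = B)
    (Y : Finset (Fin (2 * M - 1)))
    (hY : ∀ y ∈ Y, ∀ j, B y j = 0) (ℓ : ℕ) (u : Fin ℓ → Fin (2 * M - 1))
    (hu : Function.Injective u) (huY : ∀ i, u i ∉ Y) (η : Fin ℓ → ℝ)
    (hη : ∀ i, η i = 1 ∨ η i = -1)
    (h0 : ∀ S ⊆ range ℓ, S.card = m →
      0 ≤ PS (rowsM (Matrix.of fun i j => η i * B (u i) j)) S)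
    (hpos : ∃ S ⊆ range ℓ, S.card = m ∧
      0 < PS (rowsM (Matrix.of fun i j => η i * B (u i) j)) S)
    (g μ : ℕ) (hμ1 : μ ≤ m) (hμ2 : m + 2 * g + μ ≤ ℓ + 1) (hcard : Y.card + m + g = M) :
    ConclC A (2 * M * (1 / 2 : ℝ) ^ ((μ : ℝ) ^ 3 / (256 * (g + μ : ℕ) ^ 2))) := by
  rcases Nat.eq_zero_or_pos m with hm | hm
  · have : μ = 0 := by omega
    apply trivial_case hM
    rw [this]
    simp
  obtain ⟨r, rfl⟩ : ∃ r, m = r + 1 := ⟨m - 1, by omega⟩
  have hη2 : ∀ k, η k * η k = 1 := by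
    intro k
    rcases hη k with h | h <;> rw [h] <;> norm_num
  refine limit A u hu η hη2 _ h0 hpos _ fun G hG => ?_
  have hrange : ∀ y ∈ Y, ¬ ∃ k, u k = y := by
    rintro y hy ⟨k, rfl⟩
    exact huY k hy
  refine strict_in hM (act u η A G) (act u η B G) C ?_ Y ?_ ℓ u hu huY η hη ?_ g μ hμ1 hμ2 hcard
  · ext i c
    rw [Matrix.mul_apply]
    have hB : ∀ i, B i c = ∑ l, A i l * C l c := by
      intro i
      rw [← hC, Matrix.mul_apply]
    by_cases hi : ∃ k, u k = i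
    · obtain ⟨k, rfl⟩ := hi
      simp only [act_apply u hu, hB, mul_sum, sum_mul]
      rw [sum_comm]
      refine sum_congr rfl fun j _ => sum_congr rfl fun l _ => ?_
      ring
    · simp only [act_apply' u η _ G hi]
      rw [hB]
  · intro y hy j
    rw [act_apply' u η B G (hrange y hy)]
    exact hY y hy j
  · have hrows : (Matrix.of fun i j => η i * act u η B G (u i) j) =
        G * (Matrix.of fun i j => η i * B (u i) j) := by
      ext k c
      rw [Matrix.of_apply, act_apply u hu, Matrix.mul_apply, ← mul_assoc, hη2, one_mul]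
      rfl
    rw [hrows]
    exact hG

/-- **The column space is contained in a weakly alternating family.** -/
theorem weak_out {M p : ℕ} (hM : 1 ≤ M) (A : Matrix (Fin (2 * M - 1)) (Fin M) ℝ) (ℓ : ℕ)
    (u : Fin ℓ → Fin (2 * M - 1)) (hu : Function.Injective u) (V : Matrix (Fin ℓ) (Fin p) ℝ)
    (Y : Finset (Fin (2 * M - 1))) (huY : ∀ i, u i ∉ Y)
    (hA : ∀ x : Fin M → ℝ, (∀ y ∈ Y, ∑ l, A y l * x l = 0) →
      ∃ c : Fin p → ℝ, ∀ k, ∑ l, A (u k) l * x l = ∑ j, V k j * c j) (η : Fin ℓ → ℝ)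
    (hη : ∀ i, η i = 1 ∨ η i = -1)
    (h0 : ∀ S ⊆ range ℓ, S.card = p → 0 ≤ PS (rowsM (Matrix.of fun i j => η i * V i j)) S)
    (hpos : ∃ S ⊆ range ℓ, S.card = p ∧ 0 < PS (rowsM (Matrix.of fun i j => η i * V i j)) S)
    (hp : 0 < p) (g μ : ℕ) (hMp : Y.card + p = M + g) (hμ1 : p + μ ≤ ℓ) (hμ2 : μ + 2 * g ≤ p + 1) :
    ConclC A (2 * M * (1 / 2 : ℝ) ^ ((μ : ℝ) ^ 3 / (256 * (g + μ : ℕ) ^ 2))) := by
  obtain ⟨r, rfl⟩ : ∃ r, p = r + 1 := ⟨p - 1, by omega⟩
  have hη2 : ∀ k, η k * η k = 1 := by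
    intro k
    rcases hη k with h | h <;> rw [h] <;> norm_num
  refine limit A u hu η hη2 _ h0 hpos _ fun G hG => ?_
  have hrange : ∀ y ∈ Y, ¬ ∃ k, u k = y := by
    rintro y hy ⟨k, rfl⟩
    exact huY k hy
  refine strict_out hM (act u η A G) ℓ u hu
    (Matrix.of fun k c => η k * ∑ j, G k j * (η j * V j c)) Y huY ?_ η hη ?_ g μ hMp hμ1 hμ2
  · intro x hx
    obtain ⟨c, hc⟩ := hA x (fun y hy => by
      have h := hx y hy
      simp only [act_apply' u η A G (hrange y hy)] at h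
      exact h)
    refine ⟨c, fun k => ?_⟩
    calc ∑ l, act u η A G (u k) l * x l = η k * ∑ j, G k j * (η j * ∑ l, A (u j) l * x l) := by
          simp only [act_apply u hu, mul_sum, sum_mul]
          rw [sum_comm]
          exact sum_congr rfl fun j _ => sum_congr rfl fun l _ => by ring
      _ = η k * ∑ j, G k j * (η j * ∑ c', V j c' * c c') := by
          congr 1
          exact sum_congr rfl fun j _ => by rw [hc]
      _ = _ := by
          simp only [Matrix.of_apply, mul_sum, sum_mul]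
          rw [sum_comm]
          exact sum_congr rfl fun j _ => sum_congr rfl fun l _ => by ring
  · have hrows : (Matrix.of fun i j => η i *
        (Matrix.of fun k c => η k * ∑ j, G k j * (η j * V j c) : Matrix (Fin ℓ) (Fin (r + 1)) ℝ) i j) =
        G * (Matrix.of fun i j => η i * V i j) := by
      ext k c
      rw [Matrix.of_apply, Matrix.of_apply, Matrix.mul_apply, ← mul_assoc, hη2, one_mul]
      rfl
    rw [hrows]
    exact hG

lemma PS_rowsM {m ℓ : ℕ} (W : Matrix (Fin ℓ) (Fin m) ℝ) {S : Finset ℕ} (hS : S ⊆ range ℓ)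
    (hc : S.card = m) :
    ∃ t : Fin m → Fin ℓ, StrictMono t ∧ PS (rowsM W) S = (Matrix.of fun i j => W (t i) j).det := by
  have hlt : ∀ i, S.orderEmbOfFin hc i < ℓ := fun i => mem_range.1 (hS (orderEmbOfFin_mem _ _ _))
  refine ⟨fun i => ⟨S.orderEmbOfFin hc i, hlt i⟩, ?_, ?_⟩
  · intro i j hij
    exact (S.orderEmbOfFin hc).strictMono hij
  · unfold PS
    rw [dif_pos hc]
    unfold DR
    congr 1
    ext i j
    simp only [Matrix.of_apply, rowsM, dif_pos (hlt i)]

lemma PS_rowsM' {m ℓ : ℕ} (W : Matrix (Fin ℓ) (Fin m) ℝ) (t : Fin m → Fin ℓ) (ht : StrictMono t) :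
    ∃ S ⊆ range ℓ, S.card = m ∧ PS (rowsM W) S = (Matrix.of fun i j => W (t i) j).det := by
  classical
  set e : Fin m ↪ ℕ := ⟨fun i => (t i).val, fun i j h => ht.injective (Fin.ext h)⟩ with he
  have hc : (univ.map e).card = m := by rw [card_map, card_univ, Fintype.card_fin]
  refine ⟨univ.map e, ?_, hc, ?_⟩
  · intro x hx
    obtain ⟨i, -, rfl⟩ := mem_map.1 hx
    exact mem_range.2 (t i).isLt
  · unfold PS
    rw [dif_pos hc]
    have hu := orderEmbOfFin_unique hc (f := fun i => (t i).val)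
      (fun i => mem_map.2 ⟨i, mem_univ _, rfl⟩) (fun i j hij => ht hij)
    rw [← hu]
    unfold DR
    congr 1
    ext i j
    simp only [Matrix.of_apply, rowsM, dif_pos (t i).isLt]

/-- sign hypothesis in determinant form -/
lemma sign_form {m ℓ : ℕ} (W : Matrix (Fin ℓ) (Fin (m + 1)) ℝ) (ε : ℝ)
    (hsign : ∀ t : Fin (m + 1) → Fin ℓ, StrictMono t → 0 ≤ ε * (Matrix.of fun i j => W (t i) j).det)
    (hne : ∃ t : Fin (m + 1) → Fin ℓ, StrictMono t ∧ ε * (Matrix.of fun i j => W (t i) j).det ≠ 0) :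
    (∀ S ⊆ range ℓ, S.card = m + 1 →
      0 ≤ PS (rowsM (Matrix.of fun i j => (if j = 0 then ε else 1) * W i j)) S) ∧
    (∃ S ⊆ range ℓ, S.card = m + 1 ∧
      0 < PS (rowsM (Matrix.of fun i j => (if j = 0 then ε else 1) * W i j)) S) := by
  have hdet : ∀ t : Fin (m + 1) → Fin ℓ, (Matrix.of fun i j =>
      (Matrix.of fun i j => (if j = 0 then ε else 1) * W i j : Matrix (Fin ℓ) (Fin (m + 1)) ℝ) (t i) j).det
      = ε * (Matrix.of fun i j => W (t i) j).det := by
    intro t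
    have h1 := Matrix.det_mul_row (fun j : Fin (m + 1) => if j = 0 then ε else 1)
      (Matrix.of fun i j => W (t i) j)
    rw [Fin.prod_univ_succ] at h1
    simp only [if_true, Fin.succ_ne_zero, if_false, prod_const_one, mul_one] at h1
    rw [← h1]
    rfl
  constructor
  · intro S hS hc
    obtain ⟨t, ht, h2⟩ := PS_rowsM (Matrix.of fun i j => (if j = 0 then ε else 1) * W i j) hS hc
    rw [h2, hdet]
    exact hsign t ht
  · obtain ⟨t, ht, h1⟩ := hne
    obtain ⟨S, hS, hc, h2⟩ := PS_rowsM' (Matrix.of fun i j => (if j = 0 then ε else 1) * W i j) t ht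
    refine ⟨S, hS, hc, ?_⟩
    rw [h2, hdet]
    exact lt_of_le_of_ne (hsign t ht) h1.symm

end Pool.Agent.BalanWangSW
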