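import Pool.Agent.MP_686ee2_an.SW.Hub
import Pool.Agent.MP_686ee2_an.SW.Avg

/-!
Many hubs.
-/

set_option autoImplicit false
set_option maxHeartbeats 1000000

open Finset Matrix

namespace Pool.Agent.BalanWangSW

open Pool.Agent.BalanWang Pool.Agent.BalanWangSC

/-- the full set -/
def FullS (n σ q y0 : ℕ) (e : Fin q → Fin n × Fin n) : Finset ℕ :=
  Ico (q * (4 * n + 2 * σ)) (q * (4 * n + 2 * σ) + y0) ∪
    univ.biUnion (fun i : Fin q => Hub n σ (i * (4 * n + 2 * σ)) (e i).1 (e i).2)

/-- all but one hub -/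
def RestS (n σ q y0 : ℕ) (e : Fin q → Fin n × Fin n) (j : Fin q) : Finset ℕ :=
  Ico (q * (4 * n + 2 * σ)) (q * (4 * n + 2 * σ) + y0) ∪
    ((univ : Finset (Fin q)).erase j).biUnion
      (fun i : Fin q => Hub n σ (i * (4 * n + 2 * σ)) (e i).1 (e i).2)

lemma hub_mem {n σ o x : ℕ} {p : Fin n × Fin n} (hx : x ∈ Hub n σ o p.1 p.2) :
    o ≤ x ∧ x < o + (4 * n + 2 * σ) := by
  have h1 := p.1.isLt
  have h2 := p.2.isLt
  rw [mem_Hub] at hx
  omega

lemma block_disj {c i j x : ℕ} (hij : i ≠ j) (h1 : i * c ≤ x) (h2 : x < i * c + c) (h3 : j * c ≤ x)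
    (h4 : x < j * c + c) : False := by
  rcases lt_or_gt_of_ne hij with h | h
  · have : (i + 1) * c ≤ j * c := Nat.mul_le_mul_right _ h
    rw [add_mul, one_mul] at this
    omega
  · have : (j + 1) * c ≤ i * c := Nat.mul_le_mul_right _ h
    rw [add_mul, one_mul] at this
    omega

lemma block_lt {c q : ℕ} (i : Fin q) : i.val * c + c ≤ q * c := by
  have : (i.val + 1) * c ≤ q * c := Nat.mul_le_mul_right _ i.isLt
  rw [add_mul, one_mul] at this
  exact this

variable {n σ q y0 : ℕ}

lemma fullS_sub {ℓ : ℕ} (hN : q * (4 * n + 2 * σ) + y0 ≤ ℓ) (e : Fin q → Fin n × Fin n) :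
    FullS n σ q y0 e ⊆ range ℓ := by
  intro x hx
  unfold FullS at hx
  rw [mem_union, mem_Ico, mem_biUnion] at hx
  rw [mem_range]
  rcases hx with hx | ⟨i, -, hi⟩
  · omega
  · have h1 := (hub_mem hi).2
    have h2 := block_lt (c := 4 * n + 2 * σ) i
    omega

lemma fullS_card (e : Fin q → Fin n × Fin n) :
    (FullS n σ q y0 e).card = y0 + q * (2 * n) := by
  unfold FullS
  rw [card_union_of_disjoint, card_biUnion]
  · have : ∀ i ∈ (univ : Finset (Fin q)),
        (Hub n σ (i * (4 * n + 2 * σ)) (e i).1 (e i).2).card = 2 * n := fun i _ =>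
      card_Hub (e i).1.isLt.le (e i).2.isLt.le
    rw [sum_congr rfl this, sum_const, card_univ, Fintype.card_fin, smul_eq_mul, Nat.card_Ico]
    omega
  · intro i _ j _ hij
    change Disjoint (Hub n σ (i * (4 * n + 2 * σ)) (e i).1 (e i).2)
      (Hub n σ (j * (4 * n + 2 * σ)) (e j).1 (e j).2)
    rw [disjoint_left]
    intro x hx hy
    exact block_disj (fun h => hij (Fin.ext h)) (hub_mem hx).1 (hub_mem hx).2 (hub_mem hy).1
      (hub_mem hy).2
  · rw [disjoint_left]
    intro x hx hy
    rw [mem_Ico] at hx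
    rw [mem_biUnion] at hy
    obtain ⟨i, -, hi⟩ := hy
    have h1 := (hub_mem hi).2
    have h2 := block_lt (c := 4 * n + 2 * σ) i
    omega

lemma fullS_update (e : Fin q → Fin n × Fin n) (j : Fin q) (p : Fin n × Fin n) :
    FullS n σ q y0 (Function.update e j p) =
      RestS n σ q y0 e j ∪ Hub n σ (j.val * (4 * n + 2 * σ)) p.1 p.2 := by
  unfold FullS RestS
  have h : (univ : Finset (Fin q)) = insert j (univ.erase j) := (insert_erase (mem_univ j)).symm
  rw [h, biUnion_insert, Function.update_self]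
  have h2 : (univ.erase j).biUnion
      (fun i : Fin q => Hub n σ (i * (4 * n + 2 * σ)) (Function.update e j p i).1
        (Function.update e j p i).2) =
      (univ.erase j).biUnion (fun i : Fin q => Hub n σ (i * (4 * n + 2 * σ)) (e i).1 (e i).2) := by
    apply biUnion_congr rfl
    intro i hi
    rw [Function.update_of_ne (ne_of_mem_erase hi)]
  rw [erase_insert (notMem_erase _ _), h2]
  ext x
  simp only [mem_union]
  tauto

lemma restS_sub (e : Fin q → Fin n × Fin n) (j : Fin q) :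
    RestS n σ q y0 e j ⊆ FullS n σ q y0 e := by
  unfold RestS FullS
  exact union_subset_union_right (biUnion_subset_biUnion_of_subset_left _ (erase_subset _ _))

lemma restS_avoid (e : Fin q → Fin n × Fin n) (j : Fin q) :
    ∀ y ∈ RestS n σ q y0 e j,
      ¬ (j.val * (4 * n + 2 * σ) ≤ y ∧ y < j.val * (4 * n + 2 * σ) + (4 * n + 2 * σ)) := by
  intro y hy h
  unfold RestS at hy
  rw [mem_union, mem_Ico, mem_biUnion] at hy
  rcases hy with hy | ⟨i, hi, hyi⟩
  · have := block_lt (c := 4 * n + 2 * σ) j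
    omega
  · exact block_disj (fun h => (ne_of_mem_erase hi) (Fin.ext h)) (hub_mem hyi).1 (hub_mem hyi).2 h.1 h.2

lemma restS_card (e : Fin q → Fin n × Fin n) (j : Fin q) :
    (RestS n σ q y0 e j).card + 2 * n = y0 + q * (2 * n) := by
  have h1 := fullS_card (σ := σ) (y0 := y0) (Function.update e j (e j))
  rw [fullS_update, card_union_of_disjoint, card_Hub (e j).1.isLt.le (e j).2.isLt.le] at h1
  · exact h1
  · rw [disjoint_left]
    intro y hy hy2
    exact restS_avoid e j y hy (hub_mem hy2)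

/-- **The star theorem.** -/
theorem star {s : ℕ} (P : Finset ℕ → ℝ) (ℓ : ℕ)
    (hpos : ∀ S ⊆ range ℓ, S.card = s + 2 → 0 < P S)
  (hpl : ∀ X ⊆ range ℓ, X.card = s → ∀ a b c d : ℕ, a < b → b < c → c < d → d < ℓ → a ∉ X → b ∉ X →
    c ∉ X → d ∉ X → P (insert a (insert c X)) * P (insert b (insert d X)) =
      P (insert a (insert b X)) * P (insert c (insert d X)) +
        P (insert a (insert d X)) * P (insert b (insert c X))) (K : ℝ) (hK : 0 < K) (g n σ q y0 t : ℕ)
    (hy0 : y0 + q * (2 * n) = s + 1) (h2 : q * (4 * n + 2 * σ) + y0 ≤ ℓ)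
    (h3 : s + 1 + 2 * n + 2 * σ + 2 * g + 1 ≤ ℓ) (h4 : 2 * q * (t - 1) < n) (ht : 0 < t)
    (h5 : g < q * σ)
    (hexc : ∀ T ⊆ range ℓ, T.card = s + 1 → (Exc P ℓ K T).card ≤ g) :
    t * Real.log 2 < 2 * Real.log K := by
  classical
  set PL : Fin q → (Fin q → Fin n × Fin n) → Prop := fun i e =>
    ∃ k, i.val * (4 * n + 2 * σ) + n ≤ k ∧ k < i.val * (4 * n + 2 * σ) + n + σ ∧
      Good P ℓ K (FullS n σ q y0 e) k with hPL
  set PR : Fin q → (Fin q → Fin n × Fin n) → Prop := fun i e =>
    ∃ k, i.val * (4 * n + 2 * σ) + 3 * n + σ ≤ k ∧ k < i.val * (4 * n + 2 * σ) + 3 * n + 2 * σ ∧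
      Good P ℓ K (FullS n σ q y0 e) k with hPR
  have hn : 0 < n := by omega
  have hex : ∀ e, ∃ i, PL i e ∧ PR i e := by
    intro e
    by_contra hcon
    push Not at hcon
    set Tn := FullS n σ q y0 e with hTn
    have hTc : Tn.card = s + 1 := by rw [hTn, fullS_card, hy0]
    have hTℓ : Tn ⊆ range ℓ := fullS_sub h2 e
    -- killed arcs
    have harc : ∀ i : Fin q, ∃ a, i.val * (4 * n + 2 * σ) ≤ a ∧
        a + σ ≤ i.val * (4 * n + 2 * σ) + (4 * n + 2 * σ) ∧
        Ico a (a + σ) ⊆ Exc P ℓ K Tn := by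
      intro i
      have hb := block_lt (c := 4 * n + 2 * σ) i
      -- a generic arc in block `i` which avoids the hub
      have gen : ∀ a, (a = i.val * (4 * n + 2 * σ) + n ∨ a = i.val * (4 * n + 2 * σ) + 3 * n + σ) →
          (¬ ∃ k, a ≤ k ∧ k < a + σ ∧ Good P ℓ K Tn k) → Ico a (a + σ) ⊆ Exc P ℓ K Tn := by
        intro a ha hno k hk
        rw [mem_Ico] at hk
        have hkℓ : k < ℓ := by omega
        have hkT : k ∉ Tn := by
          intro hkT
          rw [hTn] at hkT
          unfold FullS at hkT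
          rw [mem_union, mem_Ico, mem_biUnion] at hkT
          rcases hkT with hkT | ⟨j, -, hj⟩
          · omega
          · have hjm := hub_mem hj
            have hij : i = j := by
              by_contra hne
              exact block_disj (c := 4 * n + 2 * σ) (fun h => hne (Fin.ext h)) (by omega)
                (by omega) hjm.1 hjm.2
            subst hij
            have e1 := (e i).1.isLt
            have e2 := (e i).2.isLt
            rw [mem_Hub] at hj
            omega
        have hng : ¬ Good P ℓ K Tn k := fun h => hno ⟨k, hk.1, hk.2, h⟩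
        unfold Good at hng
        push Not at hng
        obtain ⟨k', h1, h2', h3'⟩ := hng hkℓ hkT
        unfold Exc
        rw [mem_filter, mem_sdiff, mem_range]
        exact ⟨⟨hkℓ, hkT⟩, k', by rw [mem_sdiff, mem_range]; exact ⟨h1, h2'⟩, h3'⟩
      by_cases hp : PL i e
      · refine ⟨i.val * (4 * n + 2 * σ) + 3 * n + σ, by omega, by omega, ?_⟩
        refine gen _ (Or.inr rfl) ?_
        rintro ⟨k, k1, k2, k3⟩
        exact hcon i hp ⟨k, k1, by omega, k3⟩
      · refine ⟨i.val * (4 * n + 2 * σ) + n, by omega, by omega, ?_⟩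
        refine gen _ (Or.inl rfl) ?_
        rintro ⟨k, k1, k2, k3⟩
        exact hp ⟨k, k1, k2, k3⟩
    choose a ha1 ha2 ha3 using harc
    have hbig : (univ.biUnion (fun i : Fin q => Ico (a i) (a i + σ))).card = q * σ := by
      rw [card_biUnion]
      · simp only [Nat.card_Ico, Nat.add_sub_cancel_left, sum_const, card_univ, Fintype.card_fin,
          smul_eq_mul]
      · intro i _ j _ hij
        change Disjoint (Ico (a i) (a i + σ)) (Ico (a j) (a j + σ))
        rw [disjoint_left]
        intro x hx hy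
        rw [mem_Ico] at hx hy
        have := ha1 i
        have := ha2 i
        have := ha1 j
        have := ha2 j
        exact block_disj (c := 4 * n + 2 * σ) (fun h => hij (Fin.ext h)) (by omega : i.val * (4 * n + 2 * σ) ≤ x)
          (by omega) (by omega) (by omega)
    have hle : univ.biUnion (fun i : Fin q => Ico (a i) (a i + σ)) ⊆ Exc P ℓ K Tn := by
      intro x hx
      rw [mem_biUnion] at hx
      obtain ⟨i, -, hi⟩ := hx
      exact ha3 i hi
    have h6 := card_le_card hle
    rw [hbig] at h6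
    have h7 := hexc Tn hTℓ hTc
    omega
  obtain ⟨e, i, -, -, hI, hJ⟩ := popular h4 PL PR hex
  obtain ⟨I, hIs, hIc⟩ := exists_subset_card_eq hI
  obtain ⟨J, hJs, hJc⟩ := exists_subset_card_eq hJ
  have hb := block_lt (c := 4 * n + 2 * σ) i
  refine hub_bound P ℓ hpos hpl K hK g n σ (i.val * (4 * n + 2 * σ)) (RestS n σ q y0 e i)
    ((restS_sub e i).trans (fullS_sub h2 e)) (restS_avoid e i) (by omega)
    (by rw [restS_card, hy0]) h3 hexc (e i).1.val (e i).2.val (e i).1.isLt.le (e i).2.isLt.le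
    (I.map Fin.valEmbedding) (J.map Fin.valEmbedding) ?_ ?_ ?_ ?_ t ht ?_ ?_
  · intro x hx
    rw [mem_map] at hx
    obtain ⟨y, hy, rfl⟩ := hx
    have := (mem_filter.1 (hIs hy)).2.1
    exact ⟨this, y.isLt⟩
  · intro x hx
    rw [mem_map] at hx
    obtain ⟨y, hy, rfl⟩ := hx
    have := (mem_filter.1 (hJs hy)).2.1
    exact ⟨this, y.isLt⟩
  · intro x hx
    rw [mem_map] at hx
    obtain ⟨y, hy, rfl⟩ := hx
    obtain ⟨k, k1, k2, k3⟩ := (mem_filter.1 (hIs hy)).2.2
    rw [fullS_update] at k3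
    exact ⟨k, k1, k2, k3⟩
  · intro x hx
    rw [mem_map] at hx
    obtain ⟨y, hy, rfl⟩ := hx
    obtain ⟨k, k1, k2, k3⟩ := (mem_filter.1 (hJs hy)).2.2
    rw [fullS_update] at k3
    exact ⟨k, k1, k2, k3⟩
  · rw [card_map, hIc]
  · rw [card_map, hJc]

end Pool.Agent.BalanWangSW
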