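import Pool.Agent.MP_686ee2_an.SW.Star
import Pool.Agent.MP_686ee2_an.SW.Conc

/-!
Numbers, and the theorem for strictly alternating families.
-/

set_option autoImplicit false
set_option maxHeartbeats 1000000

open Finset Matrix

namespace Pool.Agent.BalanWangSW

open Pool.Agent.BalanWang Pool.Agent.BalanWangSC

/-- **A set of zeros with many small values.** -/
theorem exists_exc {s : ℕ} (P : Finset ℕ → ℝ) (ℓ : ℕ)
    (hpos : ∀ S ⊆ range ℓ, S.card = s + 2 → 0 < P S)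
  (hpl : ∀ X ⊆ range ℓ, X.card = s → ∀ a b c d : ℕ, a < b → b < c → c < d → d < ℓ → a ∉ X → b ∉ X →
    c ∉ X → d ∉ X → P (insert a (insert c X)) * P (insert b (insert d X)) =
      P (insert a (insert b X)) * P (insert c (insert d X)) +
        P (insert a (insert d X)) * P (insert b (insert c X))) (g μ M : ℕ) (hμ1 : μ ≤ s + 2)
    (hμ2 : s + 2 + 2 * g + μ ≤ ℓ + 1) (hgM : g + μ ≤ M) (hbig : 256 * M ^ 2 < μ ^ 3) :
    ∃ T ⊆ range ℓ, T.card = s + 1 ∧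
      g < (Exc P ℓ ((2 : ℝ) ^ ((μ : ℝ) ^ 3 / (256 * M ^ 2) - 1)) T).card := by
  by_contra hcon
  push Not at hcon
  have hμM : μ ≤ M := by omega
  have hμ257 : 256 < μ := by
    by_contra h
    push Not at h
    have h1 : μ ^ 3 ≤ 256 * M ^ 2 := by
      calc μ ^ 3 = μ * μ ^ 2 := by ring
        _ ≤ 256 * M ^ 2 := Nat.mul_le_mul h (Nat.pow_le_pow_left hμM 2)
    omega
  obtain ⟨ν, hν⟩ : ∃ ν, μ = ν + 3 := ⟨μ - 3, by omega⟩
  have hν4 : μ ^ 3 ≤ ν ^ 4 := by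
    have h0 : 254 ≤ ν := by omega
    have h1 : 9 * ν ^ 2 ≤ ν ^ 3 := by
      calc 9 * ν ^ 2 ≤ ν * ν ^ 2 := Nat.mul_le_mul_right _ (by omega)
        _ = ν ^ 3 := by ring
    have h2 : 27 * ν ≤ ν ^ 3 := by
      calc 27 * ν ≤ ν ^ 2 * ν := Nat.mul_le_mul_right _ (by nlinarith)
        _ = ν ^ 3 := by ring
    have h3 : 27 ≤ ν ^ 3 := by nlinarith
    calc μ ^ 3 = ν ^ 3 + 9 * ν ^ 2 + 27 * ν + 27 := by rw [hν]; ring
      _ ≤ 4 * ν ^ 3 := by omega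
      _ ≤ ν * ν ^ 3 := Nat.mul_le_mul_right _ (by omega)
      _ = ν ^ 4 := by ring
  have h16 : 16 * M < ν ^ 2 := by
    by_contra h
    push Not at h
    have : ν ^ 4 ≤ 256 * M ^ 2 := by
      calc ν ^ 4 = (ν ^ 2) ^ 2 := by ring
        _ ≤ (16 * M) ^ 2 := Nat.pow_le_pow_left h 2
        _ = 256 * M ^ 2 := by ring
    omega
  obtain ⟨σ, hσ⟩ : ∃ σ, σ = μ / 4 := ⟨_, rfl⟩
  have hσ1 : 4 * σ ≤ μ := by omega
  have hσ2 : ν ≤ 4 * σ := by omega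
  have hσ0 : 0 < σ := by omega
  obtain ⟨q, hq⟩ : ∃ q, q = g / σ + 1 := ⟨_, rfl⟩
  have hq0 : 0 < q := by rw [hq]; exact Nat.succ_pos _
  have hqσ : q * σ ≤ g + σ := by
    rw [hq, add_mul, one_mul]
    have := Nat.div_mul_le_self g σ
    omega
  have hqσ2 : g < q * σ := by
    rw [hq, mul_comm]
    exact Nat.lt_mul_div_succ g hσ0
  have hqν : q * ν ≤ 4 * M := by
    calc q * ν ≤ q * (4 * σ) := Nat.mul_le_mul_left _ hσ2
      _ = 4 * (q * σ) := by ring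
      _ ≤ 4 * (g + σ) := Nat.mul_le_mul_left _ hqσ
      _ ≤ 4 * M := by omega
  have hqν2 : 4 * q < ν := by
    have h1 : 4 * q * ν < ν * ν := by
      calc 4 * q * ν = 4 * (q * ν) := by ring
        _ ≤ 4 * (4 * M) := Nat.mul_le_mul_left _ hqν
        _ = 16 * M := by ring
        _ < ν ^ 2 := h16
        _ = ν * ν := by ring
    exact lt_of_mul_lt_mul_right h1 (Nat.zero_le _)
  obtain ⟨n, hn⟩ : ∃ n, n = (μ - 2) / (4 * q) := ⟨_, rfl⟩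
  have hn1 : 4 * q * n ≤ μ - 2 := by rw [hn]; exact Nat.mul_div_le _ _
  have hn2 : μ - 2 < 4 * q * (n + 1) := by rw [hn]; exact Nat.lt_mul_div_succ _ (by omega)
  have hn0 : 0 < n := by rw [hn]; exact Nat.div_pos (by omega) (by omega)
  obtain ⟨t, ht⟩ : ∃ t, t = (n - 1) / (2 * q) + 1 := ⟨_, rfl⟩
  have ht1 : 2 * q * (t - 1) ≤ n - 1 := by
    rw [ht, Nat.add_sub_cancel]; exact Nat.mul_div_le _ _
  have ht2 : n - 1 < 2 * q * t := by
    rw [ht]; exact Nat.lt_mul_div_succ _ (by omega)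
  have hqn : q * (2 * n) * 2 ≤ μ - 2 := by
    calc q * (2 * n) * 2 = 4 * q * n := by ring
      _ ≤ _ := hn1
  have hnn : 4 * n ≤ μ - 2 := by
    calc 4 * n = 4 * 1 * n := by ring
      _ ≤ 4 * q * n := Nat.mul_le_mul_right _ (Nat.mul_le_mul_left _ hq0)
      _ ≤ _ := hn1
  have hK : (0 : ℝ) < (2 : ℝ) ^ ((μ : ℝ) ^ 3 / (256 * M ^ 2) - 1) := by positivity
  have hstar := star P ℓ hpos hpl _ hK g n σ q (s + 1 - q * (2 * n)) t (by omega) (by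
      have e1 : q * (4 * n + 2 * σ) = q * (2 * n) * 2 + 2 * (q * σ) := by ring
      omega) (by omega) (by omega) (by rw [ht]; exact Nat.succ_pos _) hqσ2 hcon
  rw [Real.log_rpow (by norm_num)] at hstar
  have hlog2 : 0 < Real.log 2 := Real.log_pos (by norm_num)
  have h7 : (t : ℝ) < 2 * ((μ : ℝ) ^ 3 / (256 * M ^ 2) - 1) := by
    have : (t : ℝ) * Real.log 2 < 2 * ((μ : ℝ) ^ 3 / (256 * M ^ 2) - 1) * Real.log 2 := by
      linarith
    exact lt_of_mul_lt_mul_right this hlog2.le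
  -- the lower bound for `t`
  have hq0' : (0 : ℝ) < q := by exact_mod_cast hq0
  have hq1' : (1 : ℝ) ≤ q := by exact_mod_cast hq0
  have hM0 : (0 : ℝ) < M := by
    have : 0 < M := by omega
    exact_mod_cast this
  have hμM' : (μ : ℝ) ≤ M := by exact_mod_cast hμM
  have hμ' : (256 : ℝ) < μ := by exact_mod_cast hμ257
  have r1 : (n : ℝ) ≤ 2 * q * t := by
    have : n ≤ 2 * q * t := by omega
    exact_mod_cast this
  have r2 : (μ : ℝ) - 1 ≤ 4 * q * (n + 1) := by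
    have : μ ≤ 4 * q * (n + 1) + 1 := by omega
    have h : (μ : ℝ) ≤ 4 * q * (n + 1) + 1 := by exact_mod_cast this
    linarith
  have r3 : (q : ℝ) * (μ - 3) ≤ 4 * M := by
    have h : (q : ℝ) * ν ≤ 4 * M := by exact_mod_cast hqν
    have h2 : (μ : ℝ) = ν + 3 := by exact_mod_cast hν
    rw [h2]
    calc (q : ℝ) * (ν + 3 - 3) = q * ν := by ring
      _ ≤ _ := h
  have r4 : ((μ : ℝ) - 1) ≤ 8 * q ^ 2 * t + 4 * q := by nlinarith
  have r5 : (q : ℝ) ^ 2 * (μ - 3) ^ 2 ≤ 16 * M ^ 2 := by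
    have h := pow_le_pow_left₀ (mul_nonneg hq0'.le (by linarith)) r3 2
    calc (q : ℝ) ^ 2 * ((μ : ℝ) - 3) ^ 2 = ((q : ℝ) * ((μ : ℝ) - 3)) ^ 2 := by ring
      _ ≤ (4 * (M : ℝ)) ^ 2 := h
      _ = 16 * (M : ℝ) ^ 2 := by ring
  -- multiply `r4` by `(μ - 3)^2`
  have r6 : ((μ : ℝ) - 1) * (μ - 3) ^ 2 ≤ 128 * M ^ 2 * t + 64 * M ^ 2 := by
    have h1 : ((μ : ℝ) - 1) * (μ - 3) ^ 2 ≤ (8 * q ^ 2 * t + 4 * q) * (μ - 3) ^ 2 :=
      mul_le_mul_of_nonneg_right r4 (sq_nonneg _)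
    have h2 : (q : ℝ) * (μ - 3) ^ 2 ≤ q ^ 2 * (μ - 3) ^ 2 := by
      refine mul_le_mul_of_nonneg_right ?_ (sq_nonneg _)
      nlinarith
    have h3 : (t : ℝ) * (q ^ 2 * (μ - 3) ^ 2) ≤ t * (16 * M ^ 2) :=
      mul_le_mul_of_nonneg_left r5 (Nat.cast_nonneg _)
    calc ((μ : ℝ) - 1) * (μ - 3) ^ 2 ≤ (8 * q ^ 2 * t + 4 * q) * (μ - 3) ^ 2 := h1
      _ = 8 * (t * (q ^ 2 * (μ - 3) ^ 2)) + 4 * (q * (μ - 3) ^ 2) := by ring
      _ ≤ 8 * (t * (16 * M ^ 2)) + 4 * (16 * M ^ 2) := by linarith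
      _ = _ := by ring
  have r7 : (μ : ℝ) ^ 3 ≤ ((μ : ℝ) - 1) * (μ - 3) ^ 2 + 7 * M ^ 2 := by nlinarith
  have r8 : (μ : ℝ) ^ 3 / (256 * M ^ 2) ≤ t / 2 + 1 := by
    rw [div_le_iff₀ (by positivity)]
    nlinarith [sq_nonneg (M : ℝ)]
  linarith

end Pool.Agent.BalanWangSW
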