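import Pool.Agent.MP_686ee2_an.SW.Strict

/-!
Transfer to matrices, strictly alternating case.
-/

set_option autoImplicit false
set_option maxHeartbeats 1000000

open Finset Matrix

namespace Pool.Agent.BalanWangSW

open Pool.Agent.BalanWang Pool.Agent.BalanWangSC

/-- From the combinatorial theorem to a vector with many small entries. -/
theorem transfer {N s : ℕ} (Y : Finset (Fin N)) (ℓ : ℕ) (u : Fin ℓ → Fin N)
    (hu : Function.Injective u) (huY : ∀ i, u i ∉ Y)
    (P : Finset ℕ → ℝ) (hpos : ∀ S ⊆ range ℓ, S.card = s + 2 → 0 < P S)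
    (hpl : ∀ X ⊆ range ℓ, X.card = s → ∀ a b c d : ℕ, a < b → b < c → c < d → d < ℓ → a ∉ X → b ∉ X →
      c ∉ X → d ∉ X → P (insert a (insert c X)) * P (insert b (insert d X)) =
        P (insert a (insert b X)) * P (insert c (insert d X)) +
          P (insert a (insert d X)) * P (insert b (insert c X)))
    (W : (Fin N → ℝ) → Prop) (hW : ∀ z, W z → ∀ c : ℝ, W (fun i => z i / c))
    (hvec : ∀ T ⊆ range ℓ, T.card = s + 1 → ∃ z, W z ∧ (∀ y ∈ Y, z y = 0) ∧
      (∀ k : Fin ℓ, k.val ∈ T → z (u k) = 0) ∧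
      ∀ k : Fin ℓ, k.val ∉ T → |z (u k)| = P (insert k.val T))
    (g μ M : ℕ) (hμ1 : μ ≤ s + 2) (hμ2 : s + 2 + 2 * g + μ ≤ ℓ + 1) (hgM : g + μ ≤ M)
    (hM : 0 < M) (he1 : 1 < (μ : ℝ) ^ 3 / (256 * M ^ 2)) :
    ∃ (z : Fin N → ℝ) (k0 : Fin N) (Sm : Finset (Fin N)), W z ∧ z k0 = 1 ∧
      Y.card + (s + 2) + g ≤ Sm.card ∧ k0 ∉ Sm ∧
      ∀ k ∈ Sm, |z k| ≤ 2 * (1 / 2 : ℝ) ^ ((μ : ℝ) ^ 3 / (256 * M ^ 2)) := by
  classical
  set e : ℝ := (μ : ℝ) ^ 3 / (256 * M ^ 2) with he
  have hM0 : (0 : ℝ) < M := by exact_mod_cast hM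
  have hbig : 256 * M ^ 2 < μ ^ 3 := by
    rw [he, lt_div_iff₀ (by positivity), one_mul] at he1
    exact_mod_cast he1
  obtain ⟨T, hT, hTc, hExc⟩ := exists_exc P ℓ hpos hpl g μ M hμ1 hμ2 hgM hbig
  set K : ℝ := (2 : ℝ) ^ (e - 1) with hK
  have hK1 : 1 < K := Real.one_lt_rpow (by norm_num) (by linarith)
  have hK0 : 0 < K := by linarith
  have hKinv : K⁻¹ = 2 * (1 / 2 : ℝ) ^ e := by
    rw [hK, ← Real.rpow_neg (by norm_num), show -(e - 1) = 1 + -e by ring,
      Real.rpow_add (by norm_num), Real.rpow_one, Real.rpow_neg (by norm_num), one_div,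
      Real.inv_rpow (by norm_num)]
  set Ex := Exc P ℓ K T with hEx
  have hExsub : Ex ⊆ range ℓ \ T := by
    rw [hEx]; unfold Exc; exact filter_subset _ _
  have hne : (range ℓ \ T).Nonempty := by
    have : Ex.Nonempty := by rw [← card_pos]; omega
    exact this.mono hExsub
  obtain ⟨ks, hks, hmax⟩ := exists_max_image (range ℓ \ T) (fun k => P (insert k T)) hne
  rw [mem_sdiff, mem_range] at hks
  have hPpos : ∀ k, k < ℓ → k ∉ T → 0 < P (insert k T) := by
    intro k hk hkT
    apply hpos
    · intro y hy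
      rcases mem_insert.1 hy with rfl | hy
      · exact mem_range.2 hk
      · exact hT hy
    · rw [card_insert_of_notMem hkT, hTc]
  have hExs : ∀ k ∈ Ex, K * P (insert k T) ≤ P (insert ks T) := by
    intro k hk
    rw [hEx] at hk
    unfold Exc at hk
    obtain ⟨-, k', hk', h1⟩ := mem_filter.1 hk
    exact h1.trans (hmax k' hk')
  have hksEx : ks ∉ Ex := by
    intro h
    have h1 := hExs ks h
    have h2 := hPpos ks hks.1 hks.2
    nlinarith
  obtain ⟨z, hWz, hzY, hzT, hzk⟩ := hvec T hT hTc
  set v : ℝ := z (u ⟨ks, hks.1⟩) with hv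
  have hvabs : |v| = P (insert ks T) := hzk ⟨ks, hks.1⟩ hks.2
  have hv0 : v ≠ 0 := by
    rw [← abs_pos, hvabs]
    exact hPpos ks hks.1 hks.2
  -- the small set
  set e1 : Fin ℓ ↪ Fin N := ⟨u, hu⟩ with he1'
  set TE : Finset (Fin ℓ) := univ.filter (fun k => k.val ∈ T ∪ Ex) with hTE
  have hTEc : TE.card = s + 1 + Ex.card := by
    have h1 : TE.card = (T ∪ Ex).card := by
      refine card_nbij (fun k => k.val) ?_ ?_ ?_
      · intro k hk
        exact (mem_filter.1 hk).2
      · intro k _ l _ hkl
        exact Fin.ext hkl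
      · intro k hk
        have hk' : k ∈ T ∪ Ex := hk
        have hkℓ : k < ℓ := by
          rcases mem_union.1 hk' with h | h
          · exact mem_range.1 (hT h)
          · exact mem_range.1 (mem_sdiff.1 (hExsub h)).1
        exact ⟨⟨k, hkℓ⟩, by simpa [hTE] using hk', rfl⟩
    rw [h1, card_union_of_disjoint, hTc]
    rw [disjoint_left]
    intro x hx hx2
    exact (mem_sdiff.1 (hExsub hx2)).2 hx
  set Sm : Finset (Fin N) := Y ∪ TE.map e1 with hSm
  have hSmc : Y.card + (s + 2) + g ≤ Sm.card := by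
    rw [hSm, card_union_of_disjoint, card_map, hTEc]
    · omega
    · rw [disjoint_left]
      intro y hy hy2
      rw [mem_map] at hy2
      obtain ⟨k, -, rfl⟩ := hy2
      exact huY k hy
  have hk0 : u ⟨ks, hks.1⟩ ∉ Sm := by
    intro h
    rcases mem_union.1 h with h | h
    · exact huY _ h
    · rw [mem_map] at h
      obtain ⟨k, hk, hk2⟩ := h
      have h3 : k = ⟨ks, hks.1⟩ := hu hk2
      rw [h3] at hk
      rcases mem_union.1 (mem_filter.1 hk).2 with h | h
      · exact hks.2 h
      · exact hksEx h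
  refine ⟨fun i => z i / v, u ⟨ks, hks.1⟩, Sm, hW z hWz v, ?_, hSmc, hk0, ?_⟩
  · change z (u ⟨ks, hks.1⟩) / v = 1
    rw [← hv, div_self hv0]
  · intro i hi
    change |z i / v| ≤ _
    rw [← hKinv]
    rcases mem_union.1 hi with h | h
    · rw [hzY i h, zero_div, abs_zero]
      positivity
    · rw [mem_map] at h
      obtain ⟨k, hk, rfl⟩ := h
      change |z (u k) / v| ≤ K⁻¹
      rcases mem_union.1 (mem_filter.1 hk).2 with h | h
      · rw [hzT k h, zero_div, abs_zero]
        positivity
      · have hkT : k.val ∉ T := (mem_sdiff.1 (hExsub h)).2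
        rw [abs_div, hzk k hkT, hvabs, div_le_iff₀ (hPpos ks hks.1 hks.2)]
        have h2 := hExs _ h
        calc P (insert k.val T) = K⁻¹ * (K * P (insert k.val T)) := by
              rw [← mul_assoc, inv_mul_cancel₀ hK0.ne', one_mul]
          _ ≤ K⁻¹ * P (insert ks T) := mul_le_mul_of_nonneg_left h2 (by positivity)

/-- The rows of a matrix as a sequence. -/
def rowsM {ℓ m : ℕ} (W : Matrix (Fin ℓ) (Fin m) ℝ) : ℕ → Fin m → ℝ :=
  fun k => if h : k < ℓ then W ⟨k, h⟩ else 0

lemma trivial_case {M : ℕ} (hM : 1 ≤ M) (A : Matrix (Fin (2 * M - 1)) (Fin M) ℝ) {e : ℝ} (he : e ≤ 1) :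
    ConclC A (2 * M * (1 / 2 : ℝ) ^ e) := by
  have hM1 : (1 : ℝ) ≤ M := by exact_mod_cast hM
  refine (trivialC hM A).mono ?_
  have h1 : (1 / 2 : ℝ) ^ (1 : ℝ) ≤ (1 / 2 : ℝ) ^ e :=
    Real.rpow_le_rpow_of_exponent_ge (by norm_num) (by norm_num) he
  rw [Real.rpow_one] at h1
  nlinarith

lemma big_of {M μ : ℕ} (hμM : μ ≤ M) (he1 : 1 < (μ : ℝ) ^ 3 / (256 * M ^ 2)) :
    256 < μ := by
  have hM : 0 < M := by
    rcases Nat.eq_zero_or_pos M with h | h
    · have h1 : μ = 0 := by omega
      rw [h, h1] at he1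
      norm_num at he1
    · exact h
  have hM0 : (0 : ℝ) < M := by exact_mod_cast hM
  have hbig : 256 * M ^ 2 < μ ^ 3 := by
    rw [lt_div_iff₀ (by positivity), one_mul] at he1
    exact_mod_cast he1
  by_contra h
  push Not at h
  have h1 : μ ^ 3 ≤ 256 * M ^ 2 := by
    calc μ ^ 3 = μ * μ ^ 2 := by ring
      _ ≤ 256 * M ^ 2 := Nat.mul_le_mul h (Nat.pow_le_pow_left hμM 2)
  omega

/-- **The column space contains a strictly alternating family.** -/
theorem strict_in {M m : ℕ} (hM : 1 ≤ M) (A : Matrix (Fin (2 * M - 1)) (Fin M) ℝ)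
    (B : Matrix (Fin (2 * M - 1)) (Fin m) ℝ) (C : Matrix (Fin M) (Fin m) ℝ) (hC : A * C = B)
    (Y : Finset (Fin (2 * M - 1)))
    (hY : ∀ y ∈ Y, ∀ j, B y j = 0) (ℓ : ℕ) (u : Fin ℓ → Fin (2 * M - 1))
    (hu : Function.Injective u) (huY : ∀ i, u i ∉ Y) (η : Fin ℓ → ℝ)
    (hη : ∀ i, η i = 1 ∨ η i = -1)
    (hsign : ∀ S ⊆ range ℓ, S.card = m →
      0 < PS (rowsM (Matrix.of fun i j => η i * B (u i) j)) S)
    (g μ : ℕ) (hμ1 : μ ≤ m) (hμ2 : m + 2 * g + μ ≤ ℓ + 1) (hcard : Y.card + m + g = M) :
    ConclC A (2 * M * (1 / 2 : ℝ) ^ ((μ : ℝ) ^ 3 / (256 * (g + μ : ℕ) ^ 2))) := by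
  classical
  set e : ℝ := (μ : ℝ) ^ 3 / (256 * (g + μ : ℕ) ^ 2) with he
  rcases le_or_gt e 1 with he1 | he1
  · exact trivial_case hM A he1
  have hμ0 := big_of (by omega : μ ≤ g + μ) he1
  obtain ⟨s, rfl⟩ : ∃ s, m = s + 2 := ⟨m - 2, by omega⟩
  set w := rowsM (Matrix.of fun i j => η i * B (u i) j) with hw
  have hηa : ∀ k, |η k| = 1 := by
    intro k
    rcases hη k with h | h <;> rw [h] <;> norm_num
  have hη2 : ∀ k, η k * η k = 1 := by
    intro k
    rcases hη k with h | h <;> rw [h] <;> norm_num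
  obtain ⟨z, k0, Sm, ⟨x, hx⟩, hz, hc, -, hsm⟩ := transfer Y ℓ u hu huY (PS w) hsign
    (fun X hX hXc a b c d hab hbc hcd hd ha hb hc hd => three_signed w hXc hab hbc hcd ha hb hc hd)
    (fun z => ∃ x : Fin M → ℝ, ∀ i, z i = ∑ j, A i j * x j)
    (by
      rintro z ⟨x, hx⟩ c
      refine ⟨fun j => x j / c, fun i => ?_⟩
      change z i / c = ∑ j, A i j * (x j / c)
      rw [hx i, sum_div]
      exact sum_congr rfl fun j _ => by ring)
    (by
      intro T hT hTc
      obtain ⟨x0, hx0⟩ := exists_cofactor w (T.orderEmbOfFin hTc)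
      have hval : ∀ i, ∑ j, A i j * (∑ l, C j l * x0 l) = ∑ l, B i l * x0 l := by
        intro i
        have h1 : ∀ l, B i l = ∑ j, A i j * C j l := by
          intro l
          rw [← hC, Matrix.mul_apply]
        simp only [h1, mul_sum, sum_mul]
        rw [sum_comm]
        refine sum_congr rfl fun l _ => sum_congr rfl fun j _ => ?_
        ring
      have hev : ∀ k : Fin ℓ, ev w x0 k = η k * ∑ l, B (u k) l * x0 l := by
        intro k
        unfold ev
        rw [mul_sum]
        refine sum_congr rfl fun j _ => ?_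
        rw [hw]
        simp only [rowsM, dif_pos k.isLt, Matrix.of_apply]
        ring
      refine ⟨fun i => ∑ l, B i l * x0 l, ⟨fun j => ∑ l, C j l * x0 l, fun i => (hval i).symm⟩,
        ?_, ?_, ?_⟩
      · intro y hy
        exact sum_eq_zero fun j _ => by rw [hY y hy j, zero_mul]
      · intro k hk
        obtain ⟨l, hl⟩ : ∃ l, T.orderEmbOfFin hTc l = k.val := by
          have : k.val ∈ Set.range (T.orderEmbOfFin hTc) := by
            rw [range_orderEmbOfFin]; exact hk
          exact this
        have h0 : ev w x0 k = 0 := by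
          rw [hx0]
          unfold DR
          refine Matrix.det_zero_of_row_eq (i := 0) (j := l.succ) (Fin.succ_ne_zero l).symm ?_
          ext m
          simp only [Matrix.of_apply, Fin.cons_zero, Fin.cons_succ]
          rw [hl]
        rw [hev] at h0
        have h1 := congrArg (fun t => η k * t) h0
        simp only [mul_zero] at h1
        rw [← mul_assoc, hη2, one_mul] at h1
        exact h1
      · intro k hk
        have h1 := PS_one w hTc hk
        have h2 : |∑ l, B (u k) l * x0 l| = |ev w x0 k| := by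
          rw [hev, abs_mul, hηa, one_mul]
        have h3 : 0 < PS w (insert k.val T) := by
          apply hsign
          · intro y hy
            rcases mem_insert.1 hy with rfl | hy
            · exact mem_range.2 k.isLt
            · exact hT hy
          · rw [card_insert_of_notMem hk, hTc]
        change |∑ l, B (u k) l * x0 l| = _
        rw [h2, hx0, ← abs_of_pos h3, h1, abs_mul, sg_abs, one_mul])
    g μ (g + μ) hμ1 hμ2 le_rfl (by omega) he1
  have hfin := vector' hM A x k0 (by rw [← hx, hz]) Sm (by omega)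
    (2 * (1 / 2 : ℝ) ^ e) (by positivity) (fun k hk => by rw [← hx]; exact hsm k hk)
  refine hfin.mono (le_of_eq ?_)
  ring

lemma three_compl {p ℓ s : ℕ} (w : ℕ → Fin (p + 2) → ℝ) (hℓ : ℓ = p + 2 + (s + 2))
    (X : Finset ℕ) (hX : X ⊆ range ℓ) (hXc : X.card = s) (a b c d : ℕ) (hab : a < b) (hbc : b < c)
    (hcd : c < d) (hd : d < ℓ) (ha : a ∉ X) (hb : b ∉ X) (hc : c ∉ X) (hdX : d ∉ X) :
    PS w (range ℓ \ insert a (insert c X)) * PS w (range ℓ \ insert b (insert d X)) =
      PS w (range ℓ \ insert a (insert b X)) * PS w (range ℓ \ insert c (insert d X)) +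
        PS w (range ℓ \ insert a (insert d X)) * PS w (range ℓ \ insert b (insert c X)) := by
  classical
  set Z := range ℓ \ insert a (insert b (insert c (insert d X))) with hZ
  have hZm : ∀ {x : ℕ}, x ∈ Z ↔ x < ℓ ∧ x ≠ a ∧ x ≠ b ∧ x ≠ c ∧ x ≠ d ∧ x ∉ X := by
    intro x
    simp only [hZ, mem_sdiff, mem_range, mem_insert, not_or]
  have hZc : Z.card = p := by
    have h4 : (insert a (insert b (insert c (insert d X)))).card = s + 4 := by
      rw [card_insert_of_notMem, card_insert_of_notMem, card_insert_of_notMem,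
        card_insert_of_notMem hdX, hXc]
      · simp only [mem_insert, not_or]; exact ⟨by omega, hc⟩
      · simp only [mem_insert, not_or]; exact ⟨by omega, by omega, hb⟩
      · simp only [mem_insert, not_or]; exact ⟨by omega, by omega, by omega, ha⟩
    rw [hZ, card_sdiff_of_subset, card_range, h4]
    · omega
    · intro x hx
      simp only [mem_insert] at hx
      rw [mem_range]
      rcases hx with rfl | rfl | rfl | rfl | hx
      · omega
      · omega
      · omega
      · exact hd
      · exact mem_range.1 (hX hx)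
  have h := three_signed w hZc hab hbc hcd (by rw [hZm]; tauto) (by rw [hZm]; tauto)
    (by rw [hZm]; tauto) (by rw [hZm]; tauto)
  have e : ∀ x y x' y' : ℕ, ({x, y, x', y'} : Finset ℕ) = {a, b, c, d} → x ≠ x' → x ≠ y' → y ≠ x' →
      y ≠ y' → range ℓ \ insert x (insert y X) = insert x' (insert y' Z) := by
    intro x y x' y' hs h1 h2 h3 h4
    ext t
    have ht : (t = x ∨ t = y ∨ t = x' ∨ t = y') ↔ (t = a ∨ t = b ∨ t = c ∨ t = d) := by
      have := congrArg (fun S : Finset ℕ => t ∈ S) hs
      simpa using this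
    have hmem : ∀ t, (t = a ∨ t = b ∨ t = c ∨ t = d) → t < ℓ ∧ t ∉ X := by
      rintro t (rfl | rfl | rfl | rfl)
      · exact ⟨by omega, ha⟩
      · exact ⟨by omega, hb⟩
      · exact ⟨by omega, hc⟩
      · exact ⟨hd, hdX⟩
    simp only [mem_sdiff, mem_range, mem_insert, not_or, hZm]
    constructor
    · rintro ⟨h5, h6, h7, h8⟩
      by_cases h9 : t = a ∨ t = b ∨ t = c ∨ t = d
      · rcases ht.2 h9 with h | h | h | h
        · exact absurd h h6
        · exact absurd h h7
        · exact Or.inl h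
        · exact Or.inr (Or.inl h)
      · simp only [not_or] at h9
        exact Or.inr (Or.inr ⟨h5, h9.1, h9.2.1, h9.2.2.1, h9.2.2.2, h8⟩)
    · rintro (h | h | ⟨h5, h6, h7, h8, h9, h10⟩)
      · have h5 := hmem t (ht.1 (Or.inr (Or.inr (Or.inl h))))
        exact ⟨h5.1, by rw [h]; exact h1.symm, by rw [h]; exact h3.symm, h5.2⟩
      · have h5 := hmem t (ht.1 (Or.inr (Or.inr (Or.inr h))))
        exact ⟨h5.1, by rw [h]; exact h2.symm, by rw [h]; exact h4.symm, h5.2⟩
      · have h11 : ¬ (t = x ∨ t = y ∨ t = x' ∨ t = y') := by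
          rw [ht]; tauto
        simp only [not_or] at h11
        exact ⟨h5, h11.1, h11.2.1, h10⟩
  rw [e a c b d (by ext t; simp; tauto) (by omega) (by omega) (by omega) (by omega),
    e b d a c (by ext t; simp; tauto) (by omega) (by omega) (by omega) (by omega),
    e a b c d rfl (by omega) (by omega) (by omega) (by omega),
    e c d a b (by ext t; simp; tauto) (by omega) (by omega) (by omega) (by omega),
    e a d b c (by ext t; simp; tauto) (by omega) (by omega) (by omega) (by omega),
    e b c a d (by ext t; simp; tauto) (by omega) (by omega) (by omega) (by omega)]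
  linarith

/-- Cramer's relation. -/
lemma cramer {p : ℕ} (w : ℕ → Fin p → ℝ) (Z : Finset ℕ) (hZ : Z.card = p + 1) (j : Fin p) :
    ∑ k ∈ Z, w k j * ((-1) ^ (Z.filter (· < k)).card * PS w (Z.erase k)) = 0 := by
  classical
  set z := Z.orderEmbOfFin hZ with hz
  have hzm : ∀ i, z i ∈ Z := fun i => orderEmbOfFin_mem _ _ _
  have h0 : (Matrix.of (fun i : Fin (p + 1) => (Fin.cons (w (z i) j) (w (z i)) : Fin (p + 1) → ℝ))).det
      = 0 := by
    refine Matrix.det_zero_of_column_eq (i := 0) (j := j.succ) (Fin.succ_ne_zero j).symm ?_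
    intro i
    simp only [Matrix.of_apply, Fin.cons_zero, Fin.cons_succ]
  rw [Matrix.det_succ_column_zero] at h0
  have hmap : Z = univ.map z.toEmbedding := by
    rw [hz]; exact (map_orderEmbOfFin_univ Z hZ).symm
  have hsum : ∑ k ∈ Z, w k j * ((-1) ^ (Z.filter (· < k)).card * PS w (Z.erase k)) =
      ∑ i : Fin (p + 1), w (z i) j * ((-1) ^ (Z.filter (· < z i)).card * PS w (Z.erase (z i))) := by
    conv_lhs => rw [hmap]
    rw [sum_map]
    rw [← hmap]
    rfl
  rw [hsum, ← h0]
  refine sum_congr rfl fun i _ => ?_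
  have h1 : (Z.filter (· < z i)).card = i.val := by
    have : Z.filter (· < z i) = (univ.filter (fun i' : Fin (p + 1) => i' < i)).map z.toEmbedding := by
      ext x
      simp only [mem_filter, mem_map, mem_univ, true_and]
      constructor
      · rintro ⟨hx, hxi⟩
        rw [hmap, mem_map] at hx
        obtain ⟨i', -, rfl⟩ := hx
        exact ⟨i', z.lt_iff_lt.1 hxi, rfl⟩
      · rintro ⟨i', hi', rfl⟩
        exact ⟨hzm i', z.lt_iff_lt.2 hi'⟩
    rw [this, card_map]
    have h3 : univ.filter (fun i' : Fin (p + 1) => i' < i) = Finset.Iio i := by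
      ext x
      simp only [mem_filter, mem_univ, true_and, mem_Iio]
    rw [h3, Fin.card_Iio]
  have h2 : PS w (Z.erase (z i)) = ((Matrix.of (fun i : Fin (p + 1) =>
      (Fin.cons (w (z i) j) (w (z i)) : Fin (p + 1) → ℝ))).submatrix i.succAbove Fin.succ).det := by
    have hc : (Z.erase (z i)).card = p := by
      rw [card_erase_of_mem (hzm i), hZ]; rfl
    unfold PS
    rw [dif_pos hc]
    have hu := orderEmbOfFin_unique hc (f := z ∘ i.succAbove) (fun l => by
      rw [mem_erase]
      refine ⟨fun h => ?_, hzm _⟩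
      exact Fin.succAbove_ne i l (z.injective h)) (z.strictMono.comp (Fin.strictMono_succAbove i))
    rw [← hu]
    unfold DR
    congr 1
  rw [h1, h2]
  simp only [Matrix.of_apply, Fin.cons_zero]
  ring

/-- A functional that vanishes on the vectors which vanish on `Y` is a combination of the rows `Y`. -/
lemma span_of_ker {N M : ℕ} (A : Matrix (Fin N) (Fin M) ℝ) (Y : Finset (Fin N)) (r : Fin M → ℝ)
    (h : ∀ x : Fin M → ℝ, (∀ y ∈ Y, ∑ l, A y l * x l = 0) → ∑ l, r l * x l = 0) :
    ∃ D : Fin N → ℝ, ∀ l, r l = ∑ y ∈ Y, D y * A y l := by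
  classical
  set L : (Fin M → ℝ) → (Fin M → ℝ) →ₗ[ℝ] ℝ := fun v =>
    { toFun := fun x => ∑ l, v l * x l
      map_add' := fun x y => by
        rw [← sum_add_distrib]
        exact sum_congr rfl fun l _ => by rw [Pi.add_apply]; ring
      map_smul' := fun c x => by
        rw [RingHom.id_apply, smul_eq_mul, mul_sum]
        exact sum_congr rfl fun l _ => by rw [Pi.smul_apply, smul_eq_mul]; ring } with hL
  have hLs : ∀ v (i : Fin M), L v (Pi.single i 1) = v i := by
    intro v i
    change ∑ l, v l * (Pi.single i (1 : ℝ) : Fin M → ℝ) l = v i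
    rw [sum_eq_single i]
    · rw [Pi.single_eq_same, mul_one]
    · intro l _ hl
      rw [Pi.single_eq_of_ne hl, mul_zero]
    · intro h; exact absurd (mem_univ _) h
  have hmem : L r ∈ Submodule.span ℝ (Set.range fun y : Y => L (A y.1)) := by
    apply mem_span_of_iInf_ker_le_ker
    intro x hx
    rw [LinearMap.mem_ker]
    refine h x fun y hy => ?_
    have := (Submodule.mem_iInf _).1 hx ⟨y, hy⟩
    rw [LinearMap.mem_ker] at this
    exact this
  obtain ⟨c, hc⟩ := (Submodule.mem_span_range_iff_exists_fun ℝ).1 hmem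
  refine ⟨fun y => if h : y ∈ Y then c ⟨y, h⟩ else 0, fun l => ?_⟩
  rw [← hLs r l, ← hc, LinearMap.sum_apply, ← sum_coe_sort Y]
  refine sum_congr rfl fun y _ => ?_
  change c y * L (A y.1) (Pi.single l 1) = (if h : y.1 ∈ Y then c ⟨y.1, h⟩ else 0) * A y.1 l
  rw [dif_pos y.2, hLs]

/-- **The column space is contained in a strictly alternating family.** -/
theorem strict_out {M p : ℕ} (hM : 1 ≤ M) (A : Matrix (Fin (2 * M - 1)) (Fin M) ℝ) (ℓ : ℕ)
    (u : Fin ℓ → Fin (2 * M - 1)) (hu : Function.Injective u) (V : Matrix (Fin ℓ) (Fin p) ℝ)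
    (Y' : Finset (Fin (2 * M - 1))) (huY' : ∀ i, u i ∉ Y')
    (hA : ∀ x : Fin M → ℝ, (∀ y ∈ Y', ∑ l, A y l * x l = 0) →
      ∃ c : Fin p → ℝ, ∀ k, ∑ l, A (u k) l * x l = ∑ j, V k j * c j) (η : Fin ℓ → ℝ)
    (hη : ∀ i, η i = 1 ∨ η i = -1)
    (hsign : ∀ S ⊆ range ℓ, S.card = p → 0 < PS (rowsM (Matrix.of fun i j => η i * V i j)) S)
    (g μ : ℕ) (hMp : Y'.card + p = M + g) (hμ1 : p + μ ≤ ℓ) (hμ2 : μ + 2 * g ≤ p + 1) :
    ConclC A (2 * M * (1 / 2 : ℝ) ^ ((μ : ℝ) ^ 3 / (256 * (g + μ : ℕ) ^ 2))) := by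
  classical
  set e : ℝ := (μ : ℝ) ^ 3 / (256 * (g + μ : ℕ) ^ 2) with he
  rcases le_or_gt e 1 with he1 | he1
  · exact trivial_case hM A he1
  have hμ0 := big_of (by omega : μ ≤ g + μ) he1
  obtain ⟨s, hs⟩ : ∃ s, ℓ = p + (s + 2) := ⟨ℓ - p - 2, by omega⟩
  set w := rowsM (Matrix.of fun i j => η i * V i j) with hw
  have hηa : ∀ k, |η k| = 1 := by
    intro k
    rcases hη k with h | h <;> rw [h] <;> norm_num
  have hη2 : ∀ k, η k * η k = 1 := by
    intro k
    rcases hη k with h | h <;> rw [h] <;> norm_num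
  set e1 : Fin ℓ ↪ Fin (2 * M - 1) := ⟨u, hu⟩ with he1'
  set Y : Finset (Fin (2 * M - 1)) := univ \ (univ.map e1 ∪ Y') with hY
  have hYc : Y.card + ℓ + Y'.card = 2 * M - 1 := by
    have hd : Disjoint (univ.map e1) Y' := by
      rw [disjoint_left]
      intro x hx hx2
      obtain ⟨k, -, rfl⟩ := mem_map.1 hx
      exact huY' k hx2
    have h1 : (univ.map e1 ∪ Y').card = ℓ + Y'.card := by
      rw [card_union_of_disjoint hd, card_map, card_univ, Fintype.card_fin]
    have h2 := card_le_univ (univ.map e1 ∪ Y')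
    rw [Fintype.card_fin] at h2
    rw [hY, card_sdiff_of_subset (subset_univ _), card_univ, Fintype.card_fin]
    omega
  have huY : ∀ i, u i ∉ Y := by
    intro i hi
    rw [hY, mem_sdiff] at hi
    exact hi.2 (mem_union_left _ (mem_map.2 ⟨i, mem_univ _, rfl⟩))
  have hPpos : ∀ S ⊆ range ℓ, S.card = s + 2 → 0 < PS w (range ℓ \ S) := by
    intro S hS hSc
    apply hsign _ sdiff_subset
    rw [card_sdiff_of_subset hS, card_range, hSc]
    omega
  obtain ⟨z, k0, Sm, hz0, hz, hc, hk0, hsm⟩ := transfer Y ℓ u hu huY (fun S => PS w (range ℓ \ S))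
    hPpos
    (by
      intro X hX hXc a b c d hab hbc hcd hd ha hb hc hdX
      rcases lt_or_ge p 2 with hp2 | hp2
      · exfalso
        have h1 : insert a (insert b (insert c (insert d X))) ⊆ range ℓ := by
          intro x hx
          simp only [mem_insert] at hx
          rw [mem_range]
          rcases hx with rfl | rfl | rfl | rfl | hx
          · omega
          · omega
          · omega
          · exact hd
          · exact mem_range.1 (hX hx)
        have h2 := card_le_card h1
        rw [card_insert_of_notMem, card_insert_of_notMem, card_insert_of_notMem,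
          card_insert_of_notMem hdX, hXc, card_range] at h2
        · omega
        · simp only [mem_insert, not_or]; exact ⟨by omega, hc⟩
        · simp only [mem_insert, not_or]; exact ⟨by omega, by omega, hb⟩
        · simp only [mem_insert, not_or]; exact ⟨by omega, by omega, by omega, ha⟩
      · obtain ⟨r, rfl⟩ : ∃ r, p = r + 2 := ⟨p - 2, by omega⟩
        exact three_compl w (by omega) X hX hXc a b c d hab hbc hcd hd ha hb hc hdX)
    (fun z => ∀ l, ∑ k, A k l * z k = 0)
    (by
      intro z hz c l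
      calc ∑ k, A k l * (z k / c) = (∑ k, A k l * z k) / c := by
            rw [sum_div]; exact sum_congr rfl fun k _ => by ring
        _ = 0 := by rw [hz l, zero_div])
    (by
      intro T hT hTc
      set Z := range ℓ \ T with hZ
      have hZc : Z.card = p + 1 := by
        rw [hZ, card_sdiff_of_subset hT, card_range, hTc]; omega
      set f : ℕ → ℝ := fun k => (-1) ^ (Z.filter (· < k)).card * PS w (Z.erase k) with hf
      set d : Fin ℓ → ℝ := fun k => if k.val ∈ T then 0 else η k * f k.val with hd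
      have h2 : ∀ j, ∑ k, V k j * d k = 0 := by
        intro j
        have h3 := cramer w Z hZc j
        rw [← h3]
        have h4 : ∑ k : Fin ℓ, V k j * d k = ∑ k ∈ range ℓ, (if k ∈ T then 0 else w k j * f k) := by
          rw [sum_range]
          refine sum_congr rfl fun k _ => ?_
          simp only [hd]
          split_ifs
          · rw [mul_zero]
          · rw [hw]
            simp only [rowsM, dif_pos k.isLt, Matrix.of_apply]
            ring
        rw [h4, hZ, ← sum_subset (sdiff_subset : range ℓ \ T ⊆ range ℓ)]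
        · refine sum_congr rfl fun k hk => ?_
          rw [if_neg (mem_sdiff.1 hk).2]
        · intro k hk hk2
          have : k ∈ T := by
            by_contra h
            exact hk2 (mem_sdiff.2 ⟨hk, h⟩)
          rw [if_pos this]
      obtain ⟨D, hD⟩ := span_of_ker A Y' (fun l => ∑ k, d k * A (u k) l) (by
        intro x hx
        obtain ⟨c, hc⟩ := hA x hx
        calc ∑ l, (∑ k, d k * A (u k) l) * x l = ∑ k, d k * ∑ l, A (u k) l * x l := by
              simp only [sum_mul, mul_sum]
              rw [sum_comm]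
              exact sum_congr rfl fun k _ => sum_congr rfl fun l _ => by ring
          _ = ∑ k, ∑ j, c j * (V k j * d k) := by
              refine sum_congr rfl fun k _ => ?_
              rw [hc, mul_sum]
              exact sum_congr rfl fun j _ => by ring
          _ = ∑ j, c j * ∑ k, V k j * d k := by
              rw [sum_comm]
              exact sum_congr rfl fun j _ => by rw [mul_sum]
          _ = 0 := sum_eq_zero fun j _ => by rw [h2 j, mul_zero])
      set z : Fin (2 * M - 1) → ℝ := fun i => if i ∈ Y' then - D i else Function.extend u d 0 i with hzdef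
      have hzu : ∀ k, z (u k) = d k := by
        intro k
        simp only [hzdef, if_neg (huY' k), hu.extend_apply]
      have hzero : ∀ r, r ∉ univ.map e1 → r ∉ Y' → z r = 0 := by
        intro r hr hr2
        simp only [hzdef, if_neg hr2]
        rw [Function.extend_apply']
        · rfl
        · rintro ⟨k, hk⟩
          exact hr (mem_map.2 ⟨k, mem_univ _, hk⟩)
      refine ⟨z, ?_, ?_, ?_, ?_⟩
      · intro l
        have hdisj : Disjoint (univ.map e1) Y' := by
          rw [disjoint_left]
          intro x hx hx2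
          obtain ⟨k, -, rfl⟩ := mem_map.1 hx
          exact huY' k hx2
        rw [← sum_subset (subset_univ (univ.map e1 ∪ Y')) (fun r _ hr => by
            rw [mem_union, not_or] at hr
            rw [hzero r hr.1 hr.2, mul_zero]), sum_union hdisj, sum_map]
        have h1 : ∑ k, A (e1 k) l * z (e1 k) = ∑ y ∈ Y', D y * A y l := by
          rw [← hD l]
          refine sum_congr rfl fun k _ => ?_
          change A (u k) l * z (u k) = _
          rw [hzu]; ring
        have h3 : ∑ y ∈ Y', A y l * z y = - ∑ y ∈ Y', D y * A y l := by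
          rw [← sum_neg_distrib]
          refine sum_congr rfl fun y hy => ?_
          simp only [hzdef, if_pos hy]
          ring
        rw [h1, h3, add_neg_cancel]
      · intro y hy
        rw [hY, mem_sdiff, mem_union, not_or] at hy
        exact hzero y hy.2.1 hy.2.2
      · intro k hk
        rw [hzu]
        simp only [hd, if_pos hk]
      · intro k hk
        rw [hzu]
        simp only [hd, if_neg hk]
        have h5 : Z.erase k.val = range ℓ \ insert k.val T := by
          rw [hZ, sdiff_insert]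
        have h6 : 0 < PS w (range ℓ \ insert k.val T) := by
          apply hPpos
          · intro y hy
            rcases mem_insert.1 hy with rfl | hy
            · exact mem_range.2 k.isLt
            · exact hT hy
          · rw [card_insert_of_notMem hk, hTc]
        rw [abs_mul, hηa, one_mul]
        simp only [hf]
        rw [abs_mul, abs_pow, abs_neg, abs_one, one_pow, one_mul, h5, abs_of_pos h6])
    g μ (g + μ) (by omega) (by omega) le_rfl (by omega) he1
  have hfin := relation' hM A z k0 hz hz0 Sm (by omega) hk0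
    (2 * (1 / 2 : ℝ) ^ e) (by positivity) hsm
  refine hfin.mono (le_of_eq ?_)
  ring

end Pool.Agent.BalanWangSW
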