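import Pool.Agent.MP_686ee2_an.SW.Trans

/-!
Weakly alternating families are limits of strictly alternating ones.
-/

set_option autoImplicit false
set_option maxHeartbeats 1000000

open Finset Matrix

namespace Pool.Agent.BalanWangSW

open Pool.Agent.BalanWang Pool.Agent.BalanWangSC

lemma DR_up {r : ℕ} (w : ℕ → Fin (r + 1) → ℝ) (a b : ℕ) (τ : ℝ) (t : Fin r → ℕ) (ht : ∀ i, t i ≠ b) :
    DR (Function.update w b (w b + τ • w a)) (Fin.cons b t) =
      DR w (Fin.cons b t) + τ * DR w (Fin.cons a t) := by
  set M0 : Matrix (Fin (r + 1)) (Fin (r + 1)) ℝ :=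
    Matrix.of (fun i => w ((Fin.cons b t : Fin (r + 1) → ℕ) i)) with hM0
  have h1 : DR (Function.update w b (w b + τ • w a)) (Fin.cons b t) =
      (M0.updateRow 0 (w b + τ • w a)).det := by
    unfold DR
    congr 1
    ext i j
    refine Fin.cases ?_ (fun l => ?_) i
    · rw [updateRow_self]
      simp only [Matrix.of_apply, Fin.cons_zero, Function.update_self]
    · rw [updateRow_ne (Fin.succ_ne_zero l)]
      simp only [hM0, Matrix.of_apply, Fin.cons_succ]
      rw [Function.update_of_ne (ht l)]
  have h2 : DR w (Fin.cons b t) = (M0.updateRow 0 (w b)).det := by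
    unfold DR
    congr 1
    ext i j
    refine Fin.cases ?_ (fun l => ?_) i
    · rw [updateRow_self]
      simp only [Matrix.of_apply, Fin.cons_zero]
    · rw [updateRow_ne (Fin.succ_ne_zero l)]
  have h3 : DR w (Fin.cons a t) = (M0.updateRow 0 (w a)).det := by
    unfold DR
    congr 1
    ext i j
    refine Fin.cases ?_ (fun l => ?_) i
    · rw [updateRow_self]
      simp only [Matrix.of_apply, Fin.cons_zero]
    · rw [updateRow_ne (Fin.succ_ne_zero l)]
      simp only [hM0, Matrix.of_apply, Fin.cons_succ]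
  rw [h1, h2, h3, det_updateRow_add, det_updateRow_smul]

lemma PS_up_notMem {r : ℕ} (w : ℕ → Fin (r + 1) → ℝ) (b : ℕ) (v : Fin (r + 1) → ℝ) {S : Finset ℕ}
    (hb : b ∉ S) : PS (Function.update w b v) S = PS w S := by
  unfold PS
  split_ifs with h
  · unfold DR
    congr 1
    ext i j
    simp only [Matrix.of_apply]
    rw [Function.update_of_ne]
    intro h2
    exact hb (h2 ▸ orderEmbOfFin_mem S h i)
  · rfl

lemma PS_up {r : ℕ} (w : ℕ → Fin (r + 1) → ℝ) (a b : ℕ) (hab : a = b + 1 ∨ b = a + 1) (τ : ℝ)
    {T : Finset ℕ} (hT : T.card = r) (hb : b ∉ T) :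
    PS (Function.update w b (w b + τ • w a)) (insert b T) =
      PS w (insert b T) + τ * (if a ∈ T then 0 else PS w (insert a T)) := by
  have ht : ∀ i, T.orderEmbOfFin hT i ≠ b := fun i h => hb (h ▸ orderEmbOfFin_mem T hT i)
  rw [PS_one _ hT hb, PS_one _ hT hb, DR_up w a b τ _ ht]
  by_cases ha : a ∈ T
  · rw [if_pos ha]
    obtain ⟨l, hl⟩ : ∃ l, T.orderEmbOfFin hT l = a := by
      have : a ∈ Set.range (T.orderEmbOfFin hT) := by
        rw [range_orderEmbOfFin]; exact ha
      exact this
    have h0 : DR w (Fin.cons a (T.orderEmbOfFin hT)) = 0 := by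
      unfold DR
      refine Matrix.det_zero_of_row_eq (i := 0) (j := l.succ) (Fin.succ_ne_zero l).symm ?_
      ext m
      simp only [Matrix.of_apply, Fin.cons_zero, Fin.cons_succ]
      rw [hl]
    rw [h0]
    ring
  · rw [if_neg ha, PS_one _ hT ha]
    have hsg : sg T a = sg T b := by
      unfold sg
      congr 2
      apply filter_congr
      intro x hx
      have h1 : x ≠ a := fun h => ha (h ▸ hx)
      have h2 : x ≠ b := fun h => hb (h ▸ hx)
      omega
    rw [hsg]
    ring

/-- There is a place to lower a set which is not an initial segment. -/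
lemma exists_lower {m : ℕ} {S : Finset ℕ} (hS : S.card = m) (hne : S ≠ range m) :
    ∃ i, i ∉ S ∧ i + 1 ∈ S := by
  classical
  obtain ⟨x, hx, hxm⟩ : ∃ x ∈ S, m ≤ x := by
    by_contra h
    push Not at h
    exact hne (eq_of_subset_of_card_le (fun x hx => mem_range.2 (h x hx)) (by rw [card_range, hS]))
  obtain ⟨y, hym, hy⟩ : ∃ y, y < m ∧ y ∉ S := by
    by_contra h
    push Not at h
    have h1 : range m ⊆ S := fun y hy => h y (mem_range.1 hy)
    exact hne (eq_of_subset_of_card_le h1 (by rw [card_range, hS])).symm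
  by_contra h
  push Not at h
  have : ∀ k, y + k ∉ S := by
    intro k
    induction k with
    | zero => exact hy
    | succ k ih => exact h _ ih
  exact this (x - y) (by rw [Nat.add_sub_cancel' (by omega)]; exact hx)

lemma sum_lower {S : Finset ℕ} {i : ℕ} (h1 : i ∉ S) (h2 : i + 1 ∈ S) :
    ∑ x ∈ insert i (S.erase (i + 1)), x < ∑ x ∈ S, x := by
  have h3 : i ∉ S.erase (i + 1) := fun h => h1 (mem_of_mem_erase h)
  rw [sum_insert h3]
  have := add_sum_erase S (fun x => x) h2
  omega

/-- **Connectivity.** -/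
lemma connected (ℓ m : ℕ) (Q : Finset ℕ → Prop)
    (hQ : ∀ S ⊆ range ℓ, S.card = m → ∀ a b, (a = b + 1 ∨ b = a + 1) → b < ℓ → a ∈ S → b ∉ S → Q S →
      Q (insert b (S.erase a)))
    {S0 : Finset ℕ} (hS0 : S0 ⊆ range ℓ) (hS0c : S0.card = m) (h0 : Q S0) :
    ∀ S ⊆ range ℓ, S.card = m → Q S := by
  classical
  have hsub : ∀ {S : Finset ℕ} {i : ℕ}, S ⊆ range ℓ → i + 1 ∈ S →
      insert i (S.erase (i + 1)) ⊆ range ℓ := by
    intro S i hS hi x hx
    rcases mem_insert.1 hx with rfl | hx
    · have := mem_range.1 (hS hi)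
      exact mem_range.2 (by omega)
    · exact hS (mem_of_mem_erase hx)
  have hcard : ∀ {S : Finset ℕ} {i : ℕ}, S.card = m → i ∉ S → i + 1 ∈ S →
      (insert i (S.erase (i + 1))).card = m := by
    intro S i hS h1 h2
    rw [card_insert_of_notMem (fun h => h1 (mem_of_mem_erase h)), card_erase_of_mem h2, hS]
    have : 0 < S.card := card_pos.2 ⟨_, h2⟩
    omega
  have hdown : ∀ n, ∀ S ⊆ range ℓ, S.card = m → ∑ x ∈ S, x = n → Q S → Q (range m) := by
    intro n
    induction n using Nat.strong_induction_on with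
    | _ n ih =>
      intro S hS hc hn hQS
      by_cases hSr : S = range m
      · rw [← hSr]; exact hQS
      · obtain ⟨i, h1, h2⟩ := exists_lower hc hSr
        have h3 := hQ S hS hc (i + 1) i (Or.inl rfl) (by
          have := mem_range.1 (hS h2)
          omega) h2 h1 hQS
        exact ih _ (by rw [← hn]; exact sum_lower h1 h2) _ (hsub hS h2) (hcard hc h1 h2) rfl h3
  have hr := hdown _ S0 hS0 hS0c rfl h0
  have hup : ∀ n, ∀ S ⊆ range ℓ, S.card = m → ∑ x ∈ S, x = n → Q S := by
    intro n
    induction n using Nat.strong_induction_on with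
    | _ n ih =>
      intro S hS hc hn
      by_cases hSr : S = range m
      · rw [hSr]; exact hr
      · obtain ⟨i, h1, h2⟩ := exists_lower hc hSr
        have h3 := ih _ (by rw [← hn]; exact sum_lower h1 h2) _ (hsub hS h2) (hcard hc h1 h2) rfl
        have h4 := hQ _ (hsub hS h2) (hcard hc h1 h2) i (i + 1) (Or.inr rfl)
          (mem_range.1 (hS h2)) (mem_insert_self _ _) (by
            rw [mem_insert, not_or]
            exact ⟨by omega, notMem_erase _ _⟩) h3
        have h5 : insert (i + 1) ((insert i (S.erase (i + 1))).erase i) = S := by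
          rw [erase_insert (fun h => h1 (mem_of_mem_erase h)), insert_erase h2]
        rw [h5] at h4
        exact h4
  exact fun S hS hc => hup _ S hS hc rfl

/-- the rows of `E * W` for a transvection `E` -/
lemma rowsM_transvection {ℓ m : ℕ} (W : Matrix (Fin ℓ) (Fin m) ℝ) {a b : Fin ℓ} (_hab : b ≠ a) (τ : ℝ) :
    rowsM (transvection b a τ * W) =
      Function.update (rowsM W) b.val (rowsM W b.val + τ • rowsM W a.val) := by
  ext k j
  by_cases hk : k < ℓ
  · by_cases hkb : k = b.val
    · subst hkb
      rw [Function.update_self]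
      simp only [rowsM, dif_pos b.isLt, dif_pos a.isLt, Fin.eta, Pi.add_apply, Pi.smul_apply,
        smul_eq_mul]
      rw [transvection_mul_apply_same]
    · rw [Function.update_of_ne hkb]
      simp only [rowsM, dif_pos hk]
      rw [transvection_mul_apply_of_ne]
      intro h
      exact hkb (by rw [← h])
  · rw [Function.update_of_ne (by have := b.isLt; omega)]
    simp only [rowsM, dif_neg hk]

lemma continuous_transvection {ℓ : ℕ} (a b : Fin ℓ) :
    Continuous (fun τ : ℝ => (transvection b a τ : Matrix (Fin ℓ) (Fin ℓ) ℝ)) := by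
  refine continuous_matrix fun i j => ?_
  simp only [transvection, Matrix.add_apply, Matrix.single_apply]
  split_ifs
  · exact continuous_const.add continuous_id
  · exact continuous_const

/-- **Approximation.** -/
theorem approx {ℓ r : ℕ} : ∀ (n : ℕ) (W : Matrix (Fin ℓ) (Fin (r + 1)) ℝ),
    (∀ S ⊆ range ℓ, S.card = r + 1 → 0 ≤ PS (rowsM W) S) →
    (∃ S ⊆ range ℓ, S.card = r + 1 ∧ 0 < PS (rowsM W) S) →
    (((range ℓ).powersetCard (r + 1)).filter (fun S => PS (rowsM W) S = 0)).card ≤ n →
    (1 : Matrix (Fin ℓ) (Fin ℓ) ℝ) ∈ closure {G : Matrix (Fin ℓ) (Fin ℓ) ℝ |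
      ∀ S ⊆ range ℓ, S.card = r + 1 → 0 < PS (rowsM (G * W)) S} := by
  intro n
  induction n with
  | zero =>
    intro W h0 _ hz
    apply subset_closure
    intro S hS hc
    rw [Matrix.one_mul]
    rcases lt_or_eq_of_le (h0 S hS hc) with h | h
    · exact h
    · exfalso
      have : S ∈ ((range ℓ).powersetCard (r + 1)).filter (fun S => PS (rowsM W) S = 0) :=
        mem_filter.2 ⟨mem_powersetCard.2 ⟨hS, hc⟩, h.symm⟩
      have h2 : 0 < (((range ℓ).powersetCard (r + 1)).filter (fun S => PS (rowsM W) S = 0)).card :=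
        card_pos.2 ⟨S, this⟩
      omega
  | succ n ih =>
    intro W h0 hpos hz
    by_cases hall : ∀ S ⊆ range ℓ, S.card = r + 1 → 0 < PS (rowsM W) S
    · apply subset_closure
      intro S hS hc
      rw [Matrix.one_mul]
      exact hall S hS hc
    -- an adjacent pair
    obtain ⟨S1, hS1, hc1, a, b, hab, hbℓ, haS, hbS, hp1, hz1⟩ : ∃ S ⊆ range ℓ, S.card = r + 1 ∧
        ∃ a b, (a = b + 1 ∨ b = a + 1) ∧ b < ℓ ∧ a ∈ S ∧ b ∉ S ∧ 0 < PS (rowsM W) S ∧
          ¬ 0 < PS (rowsM W) (insert b (S.erase a)) := by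
      by_contra hcon
      push Not at hcon
      obtain ⟨S0, hS0, hS0c, hS0p⟩ := hpos
      exact hall (connected ℓ (r + 1) (fun S => 0 < PS (rowsM W) S)
        (fun S hS hc a b hab hb ha hbS hQ => hcon S hS hc a b hab hb ha hbS hQ) hS0 hS0c hS0p)
    have haℓ : a < ℓ := mem_range.1 (hS1 haS)
    set T1 := S1.erase a with hT1
    have hT1c : T1.card = r := by
      rw [hT1, card_erase_of_mem haS, hc1]; rfl
    have hbT1 : b ∉ T1 := fun h => hbS (mem_of_mem_erase h)
    have haT1 : a ∉ T1 := notMem_erase _ _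
    have hinsa : insert a T1 = S1 := insert_erase haS
    have hT1ℓ : T1 ⊆ range ℓ := (erase_subset _ _).trans hS1
    have hS2 : insert b T1 ⊆ range ℓ := by
      intro x hx
      rcases mem_insert.1 hx with rfl | hx
      · exact mem_range.2 hbℓ
      · exact hT1ℓ hx
    have hS2c : (insert b T1).card = r + 1 := by rw [card_insert_of_notMem hbT1, hT1c]
    have hz2 : PS (rowsM W) (insert b T1) = 0 := le_antisymm (not_lt.1 hz1) (h0 _ hS2 hS2c)
    have hne : (⟨b, hbℓ⟩ : Fin ℓ) ≠ ⟨a, haℓ⟩ := by
      intro h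
      have := congrArg Fin.val h
      simp only at this
      omega
    obtain ⟨E, hE1, hE0, hEc⟩ : ∃ E : ℝ → Matrix (Fin ℓ) (Fin ℓ) ℝ,
        (∀ τ, rowsM (E τ * W) = Function.update (rowsM W) b (rowsM W b + τ • rowsM W a)) ∧
        E 0 = 1 ∧ Continuous E :=
      ⟨fun τ => transvection ⟨b, hbℓ⟩ ⟨a, haℓ⟩ τ, fun τ => rowsM_transvection W hne τ,
        transvection_zero _ _, continuous_transvection _ _⟩
    -- the effect of the transvection
    have heff : ∀ τ : ℝ, 0 < τ → ∀ S ⊆ range ℓ, S.card = r + 1 →
        PS (rowsM W) S ≤ PS (rowsM (E τ * W)) S ∧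
        (S = insert b T1 → 0 < PS (rowsM (E τ * W)) S) := by
      intro τ hτ S hS hc
      rw [hE1]
      by_cases hbm : b ∈ S
      · have hTc : (S.erase b).card = r := by rw [card_erase_of_mem hbm, hc]; rfl
        have hup := PS_up (rowsM W) a b hab τ hTc (notMem_erase _ _)
        rw [insert_erase hbm] at hup
        rw [hup]
        have hge : 0 ≤ (if a ∈ S.erase b then 0 else PS (rowsM W) (insert a (S.erase b))) := by
          split_ifs with h
          · exact le_rfl
          · apply h0
            · intro x hx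
              rcases mem_insert.1 hx with rfl | hx
              · exact mem_range.2 haℓ
              · exact hS (mem_of_mem_erase hx)
            · rw [card_insert_of_notMem h, hTc]
        refine ⟨by nlinarith [mul_nonneg hτ.le hge], fun hSe => ?_⟩
        have he : S.erase b = T1 := by rw [hSe, erase_insert hbT1]
        rw [he, if_neg haT1, hinsa, hSe, hz2, zero_add]
        exact mul_pos hτ hp1
      · rw [PS_up_notMem _ _ _ hbm]
        refine ⟨le_rfl, fun hSe => ?_⟩
        exact absurd (by rw [hSe]; exact mem_insert_self _ _) hbm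
    have hstep : ∀ τ : ℝ, 0 < τ → E τ ∈
        closure {G : Matrix (Fin ℓ) (Fin ℓ) ℝ |
          ∀ S ⊆ range ℓ, S.card = r + 1 → 0 < PS (rowsM (G * W)) S} := by
      intro τ hτ
      have h1 := ih (E τ * W)
        (fun S hS hc => (h0 S hS hc).trans (heff τ hτ S hS hc).1)
        ⟨S1, hS1, hc1, hp1.trans_le (heff τ hτ S1 hS1 hc1).1⟩ (by
          have hsub : ((range ℓ).powersetCard (r + 1)).filter
              (fun S => PS (rowsM (E τ * W)) S = 0) ⊆
              (((range ℓ).powersetCard (r + 1)).filter (fun S => PS (rowsM W) S = 0)).erase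
                (insert b T1) := by
            intro S hS
            obtain ⟨hS', hSz⟩ := mem_filter.1 hS
            have hS'' := mem_powersetCard.1 hS'
            have h2 := heff τ hτ S hS''.1 hS''.2
            rw [mem_erase, mem_filter]
            refine ⟨fun h => ?_, hS', ?_⟩
            · have := h2.2 h
              rw [hSz] at this
              exact lt_irrefl _ this
            · exact le_antisymm (h2.1.trans hSz.le) (h0 S hS''.1 hS''.2)
          have h3 := card_le_card hsub
          have hmem : insert b T1 ∈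
              ((range ℓ).powersetCard (r + 1)).filter (fun S => PS (rowsM W) S = 0) :=
            mem_filter.2 ⟨mem_powersetCard.2 ⟨hS2, hS2c⟩, hz2⟩
          rw [card_erase_of_mem hmem] at h3
          omega)
      have h4 : Continuous (fun G : Matrix (Fin ℓ) (Fin ℓ) ℝ => G * E τ) :=
        continuous_id.matrix_mul continuous_const
      have h5 := map_mem_closure h4 h1 (t := {G : Matrix (Fin ℓ) (Fin ℓ) ℝ |
          ∀ S ⊆ range ℓ, S.card = r + 1 → 0 < PS (rowsM (G * W)) S}) (by
        intro G hG S hS hc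
        have := hG S hS hc
        rw [← Matrix.mul_assoc] at this
        exact this)
      rw [Matrix.one_mul] at h5
      exact h5
    rw [← closure_closure]
    have hcont := hEc.tendsto 0
    rw [hE0] at hcont
    have hseq : Filter.Tendsto (fun n : ℕ => 1 / ((n : ℝ) + 1)) Filter.atTop (nhds 0) :=
      tendsto_one_div_add_atTop_nhds_zero_nat
    exact mem_closure_of_tendsto (hcont.comp hseq)
      (Filter.Eventually.of_forall fun n => hstep _ (by positivity))

end Pool.Agent.BalanWangSW
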